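import Pool.Agent.H90.DS.Sol

/-!
# Positivity at the boundary
-/

set_option autoImplicit false
set_option linter.unusedSectionVars false

namespace Pool.Agent.H90.DS

open Module Finset Polynomial

variable {R : Type*} [CommRing R] [Algebra ℚ R]

lemma eval_T (ℓ : R →ₗ[ℚ] ℚ) (p : R[X]) (t : ℚ) :
    (T ℓ p).eval t = ℓ (p.eval (algebraMap ℚ R t)) := by
  rw [T, eval_finsetSum, eval_eq_sum_range, map_sum]
  apply Finset.sum_congr rfl
  intro k _
  rw [eval_monomial, ← map_pow, mul_comm (p.coeff k), ← Algebra.smul_def, map_smul, smul_eq_mul,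
    mul_comm]

/-- The polynomial `a + b X`. -/
noncomputable def Dp (α β : R) : R[X] := C α + C β * X

lemma eval_Dp (α β : R) (t : ℚ) :
    (Dp α β).eval (algebraMap ℚ R t) = α + t • β := by
  rw [Dp, eval_add, eval_C, eval_mul, eval_C, eval_X, mul_comm, ← Algebra.smul_def]

lemma coeff_Dp_pow (α β υ : R) (m k : ℕ) :
    ((Dp α β) ^ m * C υ).coeff k = (m.choose k : ℚ) • (α ^ (m - k) * β ^ k * υ) := by
  rw [Dp, add_comm, add_pow, coeff_mul_C, finsetSum_coeff]
  have h1 : ∀ l ∈ range (m + 1), ((C β * X) ^ l * C α ^ (m - l) * (m.choose l : R[X])).coeff k =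
      if l = k then (m.choose k : ℚ) • (α ^ (m - k) * β ^ k) else 0 := by
    intro l _
    have e1 : (C β * X) ^ l * C α ^ (m - l) * (m.choose l : R[X]) =
        C ((m.choose l : ℚ) • (α ^ (m - l) * β ^ l)) * X ^ l := by
      rw [mul_pow, Algebra.smul_def, map_mul, map_mul, map_pow, map_pow]
      have : (C ((algebraMap ℚ R) (m.choose l : ℚ)) : R[X]) = (m.choose l : R[X]) := by
        rw [map_natCast, map_natCast]
      rw [this]
      ring
    rw [e1, coeff_C_mul_X_pow]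
    by_cases hl : l = k
    · subst hl; simp
    · rw [if_neg hl, if_neg (Ne.symm hl)]
  rw [Finset.sum_congr rfl h1, Finset.sum_ite_eq']
  split_ifs with h
  · rw [smul_mul_assoc]
  · rw [Finset.mem_range] at h
    rw [Nat.choose_eq_zero_of_lt (by omega)]
    simp

theorem nonneg_of_limit (G : ℚ[X]) (h : ∀ ε : ℚ, 0 < ε → ∃ t : ℚ, 0 < t ∧ t < ε ∧ 0 ≤ G.eval t) :
    0 ≤ G.eval 0 := by
  by_contra hneg
  rw [not_le] at hneg
  have hc : Continuous fun t : ℚ => G.eval t := G.continuous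
  have h1 : ∀ᶠ t in nhds (0 : ℚ), G.eval t < 0 := hc.continuousAt.eventually (gt_mem_nhds hneg)
  obtain ⟨ε, hε, h2⟩ := Metric.eventually_nhds_iff.1 h1
  obtain ⟨q, hq0, hq⟩ := exists_rat_btwn hε
  obtain ⟨t, ht0, ht, ht1⟩ := h q (by exact_mod_cast hq0)
  have h3 : dist t 0 < ε := by
    rw [Rat.dist_eq, Rat.cast_zero, sub_zero, abs_of_pos (by exact_mod_cast ht0)]
    exact lt_trans (by exact_mod_cast ht) hq
  exact absurd (h2 h3) (not_lt.2 ht1)

theorem core (deg : R →ₗ[ℚ] ℚ) (s : ℚ) (α β υ : R) (q r : ℕ) (hr : r ≤ q)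
    (hα : α ^ (q - r + 1) * υ = 0) (δ : ℚ[X]) (hδ : δ ≠ 0) (y : R[X])
    (hy : (Dp α β) ^ (q + 2) * y = (Dp α β) ^ (q + 1) * C υ * δ.map (algebraMap ℚ R))
    (hval : ∀ m < r + 1 + δ.natTrailingDegree, deg (((Dp α β) ^ (q + 1) * C υ * y).coeff m) = 0)
    (hpos : ∀ ε : ℚ, 0 < ε → ∃ t : ℚ, 0 < t ∧ t < ε ∧ ∀ c : ℚ,
      (α + t • β) ^ (q + 1) * (υ - c • ((α + t • β) * y.eval (algebraMap ℚ R t))) = 0 →
      0 ≤ s * deg ((α + t • β) ^ q * ((υ - c • ((α + t • β) * y.eval (algebraMap ℚ R t))) *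
        (υ - c • ((α + t • β) * y.eval (algebraMap ℚ R t)))))) :
    0 ≤ s * deg (α ^ (q - r) * β ^ r * (υ * υ)) := by
  obtain ⟨δ', hδ'⟩ : X ^ δ.natTrailingDegree ∣ δ := X_pow_dvd_iff.2 (fun d hd =>
    coeff_eq_zero_of_lt_natTrailingDegree hd)
  set v := δ.natTrailingDegree with hv
  have hδ0 : δ'.eval 0 ≠ 0 := by
    intro h0
    apply (trailingCoeff_nonzero_iff_nonzero).2 hδ
    rw [trailingCoeff, ← hv, hδ', coeff_X_pow_mul', if_pos le_rfl, Nat.sub_self, coeff_zero_eq_eval_zero, h0]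
  obtain ⟨Q', hQ'⟩ : X ^ r ∣ T deg ((Dp α β) ^ q * C (υ * υ)) := by
    rw [X_pow_dvd_iff]
    intro d hd
    rw [coeff_T, coeff_Dp_pow]
    have e1 : α ^ (q - d) * β ^ d * (υ * υ) =
        α ^ (q - d - (q - r + 1)) * β ^ d * υ * (α ^ (q - r + 1) * υ) := by
      have : α ^ (q - d) = α ^ (q - d - (q - r + 1)) * α ^ (q - r + 1) := by
        rw [← pow_add]; congr 1; omega
      rw [this]; ring
    rw [e1, hα, mul_zero, smul_zero, map_zero]
  obtain ⟨θ', hθ'⟩ : X ^ (r + 1 + v) ∣ T deg ((Dp α β) ^ (q + 1) * C υ * y) := by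
    rw [X_pow_dvd_iff]
    intro d hd
    rw [coeff_T]
    exact hval d hd
  have key : 0 ≤ (C s * (δ' ^ 2 * Q' - X * (δ' * θ'))).eval 0 := by
    apply nonneg_of_limit
    intro ε hε
    have hc : Continuous fun t : ℚ => δ'.eval t := δ'.continuous
    obtain ⟨ε', hε', h2⟩ := Metric.eventually_nhds_iff.1 (hc.continuousAt.eventually_ne hδ0)
    obtain ⟨ε₁, hε₁0, hε₁⟩ := exists_rat_btwn hε'
    have hε₁0' : 0 < ε₁ := by exact_mod_cast hε₁0
    obtain ⟨t, ht0, ht, hpt⟩ := hpos (min ε ε₁) (lt_min hε hε₁0')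
    refine ⟨t, ht0, lt_of_lt_of_le ht (min_le_left _ _), ?_⟩
    have hδ't : δ'.eval t ≠ 0 := by
      apply h2
      rw [Rat.dist_eq, Rat.cast_zero, sub_zero, abs_of_pos (by exact_mod_cast ht0)]
      exact lt_trans (by exact_mod_cast lt_of_lt_of_le ht (min_le_right _ _)) hε₁
    have hδe : δ.eval t = t ^ v * δ'.eval t := by
      conv_lhs => rw [hδ']
      rw [eval_mul, eval_pow, eval_X]
    have hδt : δ.eval t ≠ 0 := by
      rw [hδe]
      exact mul_ne_zero (pow_ne_zero _ ht0.ne') hδ't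
    set d := α + t • β with hd
    set Y := y.eval (algebraMap ℚ R t) with hY
    have hyt : d ^ (q + 2) * Y = δ.eval t • (d ^ (q + 1) * υ) := by
      have h3 := congrArg (fun p => p.eval (algebraMap ℚ R t)) hy
      simp only [eval_mul, eval_pow, eval_Dp, eval_C] at h3
      have h4 : (δ.map (algebraMap ℚ R)).eval (algebraMap ℚ R t) =
          algebraMap ℚ R (δ.eval t) := by
        rw [eval_map, eval₂_at_apply]
      rw [h4, mul_comm _ ((algebraMap ℚ R) _), ← Algebra.smul_def] at h3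
      exact h3
    have hprim : d ^ (q + 1) * (υ - (δ.eval t)⁻¹ • (d * Y)) = 0 := by
      rw [mul_sub, mul_smul_comm, ← mul_assoc, ← pow_succ, hyt, smul_smul, inv_mul_cancel₀ hδt,
        one_smul, sub_self]
    have h5 := hpt (δ.eval t)⁻¹ hprim
    have hQt : deg (d ^ q * (υ * υ)) = t ^ r * Q'.eval t := by
      have h3 := congrArg (fun p => p.eval t) hQ'
      simp only [eval_T, eval_mul, eval_pow, eval_Dp, eval_C, eval_X] at h3
      exact h3
    have hθt : deg (d ^ (q + 1) * υ * Y) = t ^ (r + 1 + v) * θ'.eval t := by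
      have h3 := congrArg (fun p => p.eval t) hθ'
      simp only [eval_T, eval_mul, eval_pow, eval_Dp, eval_C, eval_X] at h3
      exact h3
    have h6 : deg (d ^ q * ((υ - (δ.eval t)⁻¹ • (d * Y)) * (υ - (δ.eval t)⁻¹ • (d * Y)))) =
        t ^ r * Q'.eval t - (δ.eval t)⁻¹ * (t ^ (r + 1 + v) * θ'.eval t) := by
      have e1 : d ^ q * ((υ - (δ.eval t)⁻¹ • (d * Y)) * (υ - (δ.eval t)⁻¹ • (d * Y))) =
          d ^ q * (υ * υ) - (2 * (δ.eval t)⁻¹) • (d ^ (q + 1) * υ * Y) +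
            ((δ.eval t)⁻¹ * (δ.eval t)⁻¹) • (d ^ (q + 2) * Y * Y) := by
        simp only [Algebra.smul_def, map_mul, map_ofNat]
        ring
      rw [e1, hyt, smul_mul_assoc, smul_smul, map_add, map_sub, map_smul, map_smul, hQt, hθt,
        smul_eq_mul, smul_eq_mul]
      field_simp
      ring
    rw [h6] at h5
    rw [eval_mul, eval_C, eval_sub, eval_mul, eval_pow, eval_mul, eval_mul, eval_X]
    have h7 : 0 ≤ (δ.eval t) ^ 2 * (s * (t ^ r * Q'.eval t -
        (δ.eval t)⁻¹ * (t ^ (r + 1 + v) * θ'.eval t))) := mul_nonneg (sq_nonneg _) h5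
    have h8 : (δ.eval t) ^ 2 * (s * (t ^ r * Q'.eval t -
        (δ.eval t)⁻¹ * (t ^ (r + 1 + v) * θ'.eval t))) =
        t ^ (2 * v + r) * (s * ((δ'.eval t) ^ 2 * Q'.eval t -
          t * (δ'.eval t * θ'.eval t))) := by
      have e2 : (δ.eval t) ^ 2 * (s * (t ^ r * Q'.eval t -
        (δ.eval t)⁻¹ * (t ^ (r + 1 + v) * θ'.eval t))) =
          s * ((δ.eval t) ^ 2 * (t ^ r * Q'.eval t) -
            δ.eval t * (t ^ (r + 1 + v) * θ'.eval t)) := by
        field_simp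
      rw [e2, hδe]
      ring
    rw [h8] at h7
    exact nonneg_of_mul_nonneg_right h7 (pow_pos ht0 _)
  have hQ0 : Q'.eval 0 = (q.choose r : ℚ) * deg (α ^ (q - r) * β ^ r * (υ * υ)) := by
    have h3 : (T deg ((Dp α β) ^ q * C (υ * υ))).coeff r = Q'.eval 0 := by
      rw [hQ', coeff_X_pow_mul', if_pos le_rfl, Nat.sub_self, coeff_zero_eq_eval_zero]
    rw [← h3, coeff_T, coeff_Dp_pow, map_smul, smul_eq_mul]
  rw [eval_mul, eval_C, eval_sub, eval_mul, eval_pow, eval_mul, eval_X, zero_mul, sub_zero,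
    hQ0] at key
  have h9 : 0 < (δ'.eval 0) ^ 2 * (q.choose r : ℚ) := by
    apply mul_pos (by positivity)
    exact_mod_cast Nat.choose_pos hr
  have h10 : s * ((δ'.eval 0) ^ 2 * ((q.choose r : ℚ) * deg (α ^ (q - r) * β ^ r * (υ * υ)))) =
      ((δ'.eval 0) ^ 2 * (q.choose r : ℚ)) * (s * deg (α ^ (q - r) * β ^ r * (υ * υ))) := by ring
  rw [h10] at key
  exact nonneg_of_mul_nonneg_right key h9

end Pool.Agent.H90.DS
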