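import Pool.Agent.H90.DS.PDof
import Pool.Agent.H90.G.S8.H914R2.GBasic

/-!
# The perverse filtration and the classes from the base
-/

open CategoryTheory AlgebraicGeometry Finset

set_option autoImplicit false
set_option linter.unusedSectionVars false

universe u v

namespace Pool.Agent.H90.DS

open Pool.Agent.H914 Pool.Agent.W498.Dom VarClass Obj WeilCohomology

variable {k : Type u} [Field k] {𝒱 : VarClass k} {ops : CycleOps 𝒱}
  {W : WeilCohomology.{u, v} ops} {X Y : 𝒱.Obj} {f : Y ⟶ X} {A : X.Cycles} {B : Y.Cycles}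

/-- The pieces. -/
def CW (P : PerverseDecomposition W f A B) : ℤ → ℤ → Submodule W.K (W.H Y) :=
  CP (W.gr Y) P.piece Y.dim

variable (P : PerverseDecomposition W f A B) (hA : X.IsCyc 1 A) (hB : Y.IsCyc 1 B)

/-- The class of `A` on `Y`. -/
noncomputable abbrev aY (W : WeilCohomology.{u, v} ops) (f : Y ⟶ X) (A : X.Cycles) : Module.End W.K (W.H Y) :=
  LinearMap.mulLeft W.K (W.map f (W.cl X A))

/-- The class of `B` on `Y`. -/
noncomputable abbrev bY (W : WeilCohomology.{u, v} ops) (B : Y.Cycles) : Module.End W.K (W.H Y) :=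
  LinearMap.mulLeft W.K (W.cl Y B)

include hA hB

lemma pdW : PD (CW P) Y.dim (aY W f A) (bY W B) := by
  apply pd_of P.isPerverse (W.isInternal Y) (W.gr_eq_bot Y)
  · intro i x hx
    have := W.mul_mem (W.map_mem f (W.cl_mem hA)) hx
    rwa [show 2 * 1 + i = i + 2 by ring] at this
  · intro i x hx
    have := W.mul_mem (W.cl_mem hB) hx
    rwa [show 2 * 1 + i = i + 2 by ring] at this
  · exact ⟨_, rfl⟩
  · exact W.even_comm (W.map_mem f (W.cl_mem hA)) _

omit hA hB in
lemma CW_le {β i : ℤ} : CW P β i ≤ grZ (W.gr Y) i := inf_le_right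

lemma Pr_deg {i : ℕ} {x : W.H Y} (hx : x ∈ W.gr Y i) (p : ℤ × ℤ) (hp : p.2 ≠ i) :
    Pr (pdW P hA hB).int p x = 0 := by
  have h1 : Pr (pdW P hA hB).int p ∘ₗ Pr (intZ (W.isInternal Y)) i = 0 := by
    apply int_ext (pdW P hA hB).int
    intro q y hy
    rw [LinearMap.comp_apply, LinearMap.zero_apply]
    by_cases hq : q.2 = i
    · have h2 : y ∈ grZ (W.gr Y) i := by
        have := CW_le P hy
        rwa [hq] at this
      rw [Pr_same _ h2]
      refine Pr_ne _ hy ?_
      intro h'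
      apply hp
      rw [← h', hq]
    · rw [Pr_ne (intZ (W.isInternal Y)) (CW_le P hy) hq, map_zero]
  have h2 := LinearMap.congr_fun h1 x
  rw [LinearMap.comp_apply, Pr_same (intZ (W.isInternal Y)) (p := (i : ℤ))
    (by rw [grZ_natCast]; exact hx)] at h2
  exact h2

lemma aY_pow_zero {l : ℕ} (hl : X.dim < l) (x : W.H Y) : ((aY W f A) ^ l) x = 0 := by
  have h1 : ((aY W f A) ^ l) x = W.map f ((W.cl X A) ^ l) * x := by
    rw [LinearMap.pow_mulLeft, LinearMap.mulLeft_apply, map_pow]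
  have h2 : ∀ m : ℕ, (W.cl X A) ^ m ∈ W.gr X (2 * m) := by
    intro m
    induction m with
    | zero => simpa using W.one_mem X
    | succ m ih =>
      rw [pow_succ]
      have := W.mul_mem ih (W.cl_mem hA)
      rwa [show 2 * m + 2 * 1 = 2 * (m + 1) by ring] at this
  have h3 := h2 l
  rw [W.gr_eq_bot X _ (by omega), Submodule.mem_bot] at h3
  rw [h1, h3, map_zero, zero_mul]

variable {r : ℕ} (hr : Y.dim = X.dim + r)
include hr

lemma one_filt : (1 : W.H Y) ∈ filt (CW P) (-r) 0 := by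
  have H := pdW P hA hB
  rw [H.mem_filt]
  intro p hp
  by_cases h0 : p.2 = 0
  · have h1 : ¬ p.1 ≤ -(r : ℤ) := fun h => hp ⟨h, h0⟩
    have h2 := Pr_mem H.int p (1 : W.H Y)
    rw [h0] at h2
    obtain ⟨l, hl⟩ : ∃ l : ℕ, (l : ℤ) = Y.dim + p.1 := ⟨(Y.dim + p.1).toNat, by omega⟩
    apply H.ainj p.1 l
    · rw [hl, sub_self]; exact h2
    · exact aY_pow_zero hA hB (by omega) _
  · exact Pr_deg P hA hB (W.one_mem Y) p (by exact_mod_cast h0)

lemma bpow_filt : ((bY W B) ^ (r + 1)) 1 ∈ filt (CW P) (r + 1) (2 * r + 2) := by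
  have H := pdW P hA hB
  have h1 : ∀ m : ℕ, ((bY W B) ^ m) 1 ∈ filt (CW P) (-r + 2 * m) (2 * m) := by
    intro m
    induction m with
    | zero => simpa using one_filt P hA hB hr
    | succ m ih =>
      rw [pow_succ', Module.End.mul_apply]
      have := H.b_filt ih
      convert this using 2 <;> · push_cast; ring
  have h2 := h1 (r + 1)
  have e1 : -(r : ℤ) + 2 * ((r + 1 : ℕ) : ℤ) = r + 2 := by push_cast; ring
  have e2 : 2 * ((r + 1 : ℕ) : ℤ) = 2 * r + 2 := by push_cast; ring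
  rw [e1, e2] at h2
  have h3 : Pr H.int ((r : ℤ) + 2, 2 * (r : ℤ) + 2) (((bY W B) ^ (r + 1)) 1) = 0 := by
    have h4 := Pr_mem H.int ((r : ℤ) + 2, 2 * (r : ℤ) + 2) (((bY W B) ^ (r + 1)) 1)
    apply H.ainj (r + 2) X.dim
    · have e3 : (Y.dim : ℤ) + (r + 2) - X.dim = 2 * r + 2 := by rw [hr]; push_cast; ring
      rw [e3]; exact h4
    · have h5 := CW_le P (H.a_pow_mem h4 X.dim)
      have e4 : (2 * (r : ℤ) + 2 + 2 * (X.dim : ℤ)) = ((2 * Y.dim + 2 : ℕ) : ℤ) := by
        rw [hr]; push_cast; ring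
      rw [e4, grZ_natCast, W.gr_eq_bot Y _ (by omega), Submodule.mem_bot] at h5
      exact h5
  have h6 := H.filt_pred h2 h3
  convert h6 using 2
  ring

omit hA hB hr in
lemma map_filt {d : ℕ} {ξ : W.H X} (hξ : ξ ∈ W.gr X d) {β i : ℤ} {x : W.H Y}
    (hx : x ∈ filt (CW P) β i) : W.map f ξ * x ∈ filt (CW P) β (i + d) := by
  refine PD.filt_induction (C := CW P)
    (p := fun x => W.map f ξ * x ∈ filt (CW P) β (i + d)) ?_ ?_ ?_ hx
  · rw [mul_zero]; exact Submodule.zero_mem _
  · intro x y h1 h2; rw [mul_add]; exact Submodule.add_mem _ h1 h2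
  · intro γ hγ y hy
    refine PD.le_filt hγ ?_
    obtain ⟨h1, h2⟩ := Submodule.mem_inf.1 hy
    refine Submodule.mem_inf.2 ⟨?_, ?_⟩
    · by_cases h0 : 0 ≤ (Y.dim : ℤ) + γ
      · rw [grZ, if_pos h0] at h1 ⊢
        exact P.isPerverse.smul_mem _ _ ⟨ξ, rfl⟩ y h1
      · rw [grZ_of_neg (by omega), Submodule.mem_bot] at h1
        rw [h1, mul_zero]; exact Submodule.zero_mem _
    · by_cases h0 : 0 ≤ i
      · lift i to ℕ using h0
        rw [grZ_natCast] at h2
        rw [show ((i : ℤ) + (d : ℤ)) = ((d + i : ℕ) : ℤ) by push_cast; ring, grZ_natCast]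
        exact W.mul_mem (W.map_mem f hξ) h2
      · rw [grZ_of_neg (by omega), Submodule.mem_bot] at h2
        rw [h2, mul_zero]; exact Submodule.zero_mem _

lemma base_filt {p : ℕ} {ξ : W.H X} (hξ : ξ ∈ W.gr X (2 * p)) :
    W.map f ξ ∈ filt (CW P) (-r) (2 * p) := by
  have := map_filt P hξ (one_filt P hA hB hr)
  rw [mul_one] at this
  convert this using 1
  push_cast; ring_nf

lemma base_bpow_filt {p : ℕ} {ξ : W.H X} (hξ : ξ ∈ W.gr X (2 * p)) :
    ((bY W B) ^ (r + 1)) (W.map f ξ) ∈ filt (CW P) (r + 1) (2 * p + 2 * (r + 1)) := by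
  have h1 := map_filt P hξ (bpow_filt P hA hB hr)
  have h2 : ((bY W B) ^ (r + 1)) (W.map f ξ) = W.map f ξ * ((bY W B) ^ (r + 1)) 1 := by
    rw [LinearMap.pow_mulLeft, LinearMap.mulLeft_apply, LinearMap.mulLeft_apply, mul_one]
    exact (W.even_comm (W.map_mem f hξ) _).symm
  rw [h2]
  convert h1 using 1
  push_cast; ring_nf

/-- The expansion of `(a + b t) ^ (q + 1) u`. -/
lemma base_inL {p q : ℕ} {ξ : W.H X} (hξ : ξ ∈ W.gr X (2 * p)) (hq : r ≤ q)
    (h0 : ((aY W f A) ^ (q - r + 1)) (W.map f ξ) = 0) (c : ℕ → W.K) :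
    InL (CW P) (r + 1) (2 * p + 2 * (q + 1)) (fun i => if i ≤ q + 1 then
      c i • ((aY W f A) ^ (q + 1 - i)) (((bY W B) ^ i) (W.map f ξ)) else 0) := by
  have H := pdW P hA hB
  intro i
  dsimp only
  by_cases hi : i ≤ q + 1
  · rw [if_pos hi]
    apply Submodule.smul_mem
    by_cases hir : i ≤ r
    · have e1 : ((aY W f A) ^ (q + 1 - i)) (((bY W B) ^ i) (W.map f ξ)) =
          ((bY W B) ^ i) (((aY W f A) ^ (r - i)) (((aY W f A) ^ (q - r + 1)) (W.map f ξ))) := by
        have hc : Commute ((aY W f A) ^ (q + 1 - i)) ((bY W B) ^ i) := H.comm.pow_pow _ _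
        have h1 := congrArg (fun T => T (W.map f ξ)) hc.eq
        simp only [Module.End.mul_apply] at h1
        rw [h1, ← Module.End.mul_apply ((aY W f A) ^ (r - i)), ← pow_add]
        congr 3
        omega
      rw [e1, h0, map_zero, map_zero]
      exact Submodule.zero_mem _
    · obtain ⟨l, rfl⟩ : ∃ l, i = l + (r + 1) := ⟨i - (r + 1), by omega⟩
      have h1 : ∀ l : ℕ, ((bY W B) ^ (l + (r + 1))) (W.map f ξ) ∈
          filt (CW P) (r + 1 + 2 * l) (2 * p + 2 * (r + 1) + 2 * l) := by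
        intro l
        induction l with
        | zero => simpa using base_bpow_filt P hA hB hr hξ
        | succ l ih =>
          rw [show l + 1 + (r + 1) = (l + (r + 1)) + 1 by ring, pow_succ', Module.End.mul_apply]
          have := H.b_filt ih
          convert this using 2 <;> · push_cast; ring
      have h2 : ∀ m : ℕ, ((aY W f A) ^ m) (((bY W B) ^ (l + (r + 1))) (W.map f ξ)) ∈
          filt (CW P) (r + 1 + 2 * l) (2 * p + 2 * (r + 1) + 2 * l + 2 * m) := by
        intro m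
        induction m with
        | zero => simpa using h1 l
        | succ m ih =>
          rw [pow_succ', Module.End.mul_apply]
          have := H.a_filt ih
          convert this using 2
          push_cast; ring
      have h3 := h2 (q + 1 - (l + (r + 1)))
      have e2 : (r : ℤ) + 1 + 2 * l = 2 * ((l + (r + 1) : ℕ) : ℤ) - (r + 1) := by
        push_cast; ring
      have e3 : 2 * (p : ℤ) + 2 * (r + 1) + 2 * l + 2 * ((q + 1 - (l + (r + 1)) : ℕ) : ℤ) =
          2 * p + 2 * (q + 1) := by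
        omega
      rw [e2, e3] at h3
      exact h3
  · rw [if_neg hi]; exact Submodule.zero_mem _

end Pool.Agent.H90.DS
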