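import Pool.Agent.H90.BU.GeoD
import Pool.Agent.H90.G.S8.H914R2.Blocks

/-!
# The numerical ring as a subring of the cohomology
-/

open CategoryTheory AlgebraicGeometry Finset

set_option autoImplicit false
set_option linter.unusedSectionVars false

universe u v

namespace Pool.Agent.H90.DS

open Pool.Agent.H914 VarClass Obj WeilCohomology
open Pool.Agent.R910.Mix (ratAlg algSet AQ retr AQj mkA degQ degQ_apply resA resA_coe coe_smul'
  tr_eq)
open Pool.Agent.R910.Num (numI NA mkN degN grN mem_grN mem_numI mkN_surj mkN_eq_zero degN_mk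
  AQ_induction cl_eq_zero numI_iff grN_mul nondegN finN coe_pow_mul degQ_mk_mul degQ_mk_mul')
open Pool.Agent.H90.BU.Geo (cN cN_mem cN_eq_zero)

variable {k : Type u} [Field k] {𝒱 : VarClass k} {ops : CycleOps 𝒱}
  {W : WeilCohomology.{u, v} ops} {Y : 𝒱.Obj}

attribute [local instance] ratAlg

lemma AQ_decomp (a : AQ W Y) : ∃ g : ℕ → Y.Cycles, ∃ hg : ∀ j, Y.IsCyc j (g j),
    a = ∑ j ∈ range (Y.dim + 1), mkA (W := W) ⟨g j, hg j, rfl⟩ := by
  refine AQ_induction (p := fun a => ∃ g : ℕ → Y.Cycles, ∃ hg : ∀ j, Y.IsCyc j (g j),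
    a = ∑ j ∈ range (Y.dim + 1), mkA (W := W) ⟨g j, hg j, rfl⟩) ?_ ?_ ?_ a
  · intro j z hz
    by_cases hj : j ≤ Y.dim
    · refine ⟨fun l => if l = j then z else 0, ?_, ?_⟩
      · intro l
        show Y.IsCyc l (if l = j then z else 0)
        by_cases hl : l = j
        · rw [if_pos hl, hl]; exact hz
        · rw [if_neg hl]; exact SmVar.IsCyc.zero _ _
      · apply Subtype.ext
        rw [AddSubmonoidClass.coe_finsetSum, Finset.sum_eq_single j]
        · show W.cl Y z = W.cl Y (if j = j then z else 0)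
          rw [if_pos rfl]
        · intro l _ hl
          show W.cl Y (if l = j then z else 0) = 0
          rw [if_neg hl, map_zero]
        · intro h'
          exact absurd (Finset.mem_range.2 (by omega)) h'
    · refine ⟨fun _ => 0, fun l => SmVar.IsCyc.zero _ _, ?_⟩
      apply Subtype.ext
      rw [AddSubmonoidClass.coe_finsetSum, Finset.sum_eq_zero]
      · exact cl_eq_zero (by omega) hz
      · intro l _
        exact map_zero (W.cl Y)
  · rintro a b ⟨g, hg, ha⟩ ⟨g', hg', hb⟩
    refine ⟨fun l => g l + g' l, fun l => (hg l).add (hg' l), ?_⟩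
    rw [ha, hb, ← Finset.sum_add_distrib]
    apply Finset.sum_congr rfl
    intro l _
    exact Subtype.ext (map_add (W.cl Y) (g l) (g' l)).symm
  · rintro q a ⟨g, hg, ha⟩
    refine ⟨fun l => q • g l, fun l => (hg l).smul q, ?_⟩
    rw [ha, Finset.smul_sum]
    apply Finset.sum_congr rfl
    intro l _
    apply Subtype.ext
    rw [coe_smul']
    exact (W.cl_smul q (g l)).symm

/-- If the conjecture D holds, numerically trivial classes vanish. -/
lemma coe_eq_zero (hD : HomEqNum W Y) {a : AQ W Y} (ha : a ∈ numI W Y) : a = 0 := by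
  obtain ⟨g, hg, rfl⟩ := AQ_decomp a
  apply Finset.sum_eq_zero
  intro j hj
  have hjn : j ≤ Y.dim := by have := Finset.mem_range.1 hj; omega
  apply Subtype.ext
  show W.cl Y (g j) = 0
  apply hD j hjn (g j) (hg j)
  intro w hw
  have h1 := ha (mkA (W := W) ⟨w, hw, rfl⟩)
  rw [Finset.sum_mul, map_sum, Finset.sum_eq_single j] at h1
  · rwa [degQ_mk_mul (hg j) hw (by omega)] at h1
  · intro l hl hlj
    have := Finset.mem_range.1 hl
    exact degQ_mk_mul' (hg l) hw (by omega)
  · intro h'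
    exact absurd hj h'

/-- The numerical ring as a subring of the cohomology. -/
noncomputable def psi (hD : HomEqNum W Y) : NA W Y →+* W.H Y :=
  Ideal.Quotient.lift (numI W Y) ((Algebra.adjoin ℚ (algSet W Y)).val.toRingHom)
    (fun a ha => by
      rw [coe_eq_zero hD ha]
      exact map_zero _)

lemma psi_mk (hD : HomEqNum W Y) (a : AQ W Y) : psi hD (mkN W Y a) = (a : W.H Y) := rfl

lemma psi_cN (hD : HomEqNum W Y) {j : ℕ} {z : Y.Cycles} (hz : Y.IsCyc j z) :
    psi hD (cN W Y hz) = W.cl Y z := rfl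

lemma psi_inj (hD : HomEqNum W Y) {x : NA W Y} (hx : psi hD x = 0) : x = 0 := by
  obtain ⟨a, rfl⟩ := mkN_surj x
  rw [psi_mk] at hx
  have : a = 0 := Subtype.ext hx
  rw [this, map_zero]

lemma psi_smul (hD : HomEqNum W Y) (q : ℚ) (x : NA W Y) :
    psi hD (q • x) = (q : W.K) • psi hD x := by
  obtain ⟨a, rfl⟩ := mkN_surj x
  rw [← map_smul, psi_mk, psi_mk, coe_smul']

lemma psi_mem (hD : HomEqNum W Y) {j : ℕ} {x : NA W Y} (hx : x ∈ grN W Y j) :
    psi hD x ∈ W.gr Y (2 * j) := by
  obtain ⟨z, hz, rfl⟩ := mem_grN.1 hx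
  exact W.cl_mem hz

lemma degN_psi (hD : HomEqNum W Y) {x : NA W Y} (hx : W.tr Y (psi hD x) = 0) :
    degN W Y x = 0 := by
  obtain ⟨a, rfl⟩ := mkN_surj x
  rw [psi_mk] at hx
  rw [degN_mk, degQ_apply, hx, map_zero]

end Pool.Agent.H90.DS
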