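import Pool.Agent.H90.DS.StmtDefs
import Pool.Agent.H90.DS.Psi
import Pool.Agent.H90.DS.HPart
import Pool.Agent.H90.DS.Core

/-!
# The descent of the positivity
-/

open CategoryTheory AlgebraicGeometry Finset Polynomial

set_option autoImplicit false
set_option linter.unusedSectionVars false

universe u v

namespace Pool.Agent.H90.DS

open Pool.Agent.H914 Pool.Agent.W498.Dom VarClass Obj WeilCohomology
open Pool.Agent.R910.Mix (ratAlg algSet AQ retr AQj mkA degQ degQ_apply resA resA_coe coe_smul'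
  tr_eq)
open Pool.Agent.R910.Num (numI NA mkN degN grN mem_grN mem_numI mkN_surj mkN_eq_zero degN_mk
  AQ_induction cl_eq_zero numI_iff grN_mul nondegN finN coe_pow_mul degQ_mk_mul degQ_mk_mul')
open Pool.Agent.H90.BU.Geo (cN cN_mem cN_eq_zero pullN pushN pullN_mem pushN_mem pushN_mul
  degN_push grN_eq_bot cN_mk cN_divPow mulLeft_pow_apply pushN_mk pullN_mk)

variable {k : Type u} [Field k] {𝒱 : VarClass k} {ops : CycleOps 𝒱}
  {W : WeilCohomology.{u, v} ops} {X Y : 𝒱.Obj} {f : Y ⟶ X} {A : X.Cycles} {B : Y.Cycles}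

attribute [local instance] ratAlg

section seq

variable (hD : HomEqNum W Y) (hA : X.IsCyc 1 A) (hB : Y.IsCyc 1 B)

/-- The operator `a + b t`. -/
noncomputable abbrev DY (f : Y ⟶ X) (hA : X.IsCyc 1 A) (hB : Y.IsCyc 1 B) : (NA W Y)[X] :=
  Dp (cN W Y (ops.pull_mem f hA)) (cN W Y hB)

/-- The sequence of the coefficients. -/
noncomputable def sq (y : (NA W Y)[X]) (k : ℕ) : W.H Y := psi hD (y.coeff k)

lemma sq_mul (y : (NA W Y)[X]) :
    sq hD (DY (W := W) f hA hB * y) = dop (aY W f A) (bY W B) (sq hD y) := by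
  have e0 : DY (W := W) f hA hB * y = C (cN W Y (ops.pull_mem f hA)) * y +
      C (cN W Y hB) * (Polynomial.X * y) := by
    simp only [DY, Dp]; ring
  funext k
  rcases k with _ | k
  · rw [sq, e0, coeff_add, coeff_C_mul, coeff_C_mul, coeff_X_mul_zero, mul_zero, add_zero,
      map_mul, psi_cN, W.cl_pull]
    rfl
  · rw [sq, e0, coeff_add, coeff_C_mul, coeff_C_mul, coeff_X_mul, map_add, map_mul, map_mul,
      psi_cN, psi_cN, W.cl_pull]
    rfl

lemma sq_pow_mul (m : ℕ) (y : (NA W Y)[X]) :
    sq hD ((DY (W := W) f hA hB) ^ m * y) = (dop (aY W f A) (bY W B))^[m] (sq hD y) := by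
  induction m with
  | zero => rw [pow_zero, one_mul]; rfl
  | succ m ih => rw [pow_succ', mul_assoc, sq_mul, ih, Function.iterate_succ_apply']

lemma coeff_mem {j : ℕ} {y : (NA W Y)[X]} (hy : ∀ k, y.coeff k ∈ grN W Y j) (m : ℕ) :
    ∀ k, ((DY (W := W) f hA hB) ^ m * y).coeff k ∈ grN W Y (j + m) := by
  induction m with
  | zero => intro k; rw [pow_zero, one_mul]; exact hy k
  | succ m ih =>
    intro k
    have e0 : (DY (W := W) f hA hB) ^ (m + 1) * y = C (cN W Y (ops.pull_mem f hA)) *
        ((DY (W := W) f hA hB) ^ m * y) + C (cN W Y hB) * (Polynomial.X * ((DY (W := W) f hA hB) ^ m * y)) := by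
      rw [pow_succ']; simp only [DY, Dp]; ring
    rw [e0, coeff_add, coeff_C_mul, coeff_C_mul]
    have h1 : ∀ x ∈ grN W Y (j + m), ∀ δ ∈ grN W Y 1, δ * x ∈ grN W Y (j + (m + 1)) := by
      intro x hx δ hδ
      have := grN_mul hx hδ
      rwa [mul_comm, add_assoc] at this
    apply Submodule.add_mem _ (h1 _ (ih k) _ (cN_mem _))
    rcases k with _ | k
    · rw [coeff_X_mul_zero, mul_zero]; exact Submodule.zero_mem _
    · rw [coeff_X_mul]; exact h1 _ (ih k) _ (cN_mem _)

lemma coeff_C_mem {j : ℕ} {x : NA W Y} (hx : x ∈ grN W Y j) (k : ℕ) :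
    (C x : (NA W Y)[X]).coeff k ∈ grN W Y j := by
  rcases k with _ | k
  · rw [coeff_C_zero]; exact hx
  · rw [coeff_C_succ]; exact Submodule.zero_mem _

end seq

variable (P : PerverseDecomposition W f A B) (hA : X.IsCyc 1 A) (hB : Y.IsCyc 1 B)
  (hD : HomEqNum W Y)

include P hD

lemma strictW {ρ : ℤ} {j M : ℕ} (hM : 2 * j + M = Y.dim) {y : (NA W Y)[X]}
    (hy : ∀ k, y.coeff k ∈ grN W Y j)
    (h : InL (CW P) ρ (2 * j + 2 * M) (sq hD ((DY (W := W) f hA hB) ^ M * y))) :
    InL (CW P) ρ (2 * j) (sq hD y) := by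
  rw [sq_pow_mul] at h
  refine (pdW P hA hB).strict (i := 2 * (j : ℤ)) (M := M) (by exact_mod_cast hM) ?_ h
  intro k p hp
  exact Pr_deg P hA hB (psi_mem hD (hy k)) p (by push_cast; exact hp)

lemma injW {j M : ℕ} (hM : 2 * j + M = Y.dim) {y : (NA W Y)[X]}
    (hy : ∀ k, y.coeff k ∈ grN W Y j) (h : (DY (W := W) f hA hB) ^ M * y = 0) : y = 0 := by
  have H := pdW P hA hB
  obtain ⟨n, hn⟩ := ((finite_supp H.int).image (fun p => p.1.natAbs)).bddAbove
  have hbot : ∀ β : ℤ, β < -(n : ℤ) → ∀ i, CW P β i = ⊥ := by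
    intro β hβ i
    by_contra hne
    have h1 : β.natAbs ≤ n := hn ⟨(β, i), hne, rfl⟩
    omega
  ext k
  rw [coeff_zero]
  apply psi_inj hD
  have h1 := strictW P hA hB hD (ρ := 2 * k + n + 1) hM hy (by
    intro l
    rw [h, sq, coeff_zero, map_zero]
    exact Submodule.zero_mem _) k
  have h2 : filt (CW P) (2 * (k : ℤ) - (2 * k + n + 1)) (2 * (j : ℤ)) = ⊥ := by
    rw [filt, iSup_eq_bot]
    intro γ
    rw [iSup_eq_bot]
    intro hγ
    exact hbot γ (by omega) _
  rw [h2, Submodule.mem_bot] at h1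
  exact h1

variable {r : ℕ} (hr : Y.dim = X.dim + r)
include hA hB hr

/-- The limit argument. -/
theorem semi {c : ℚ} (hc : 0 < c) (hpush : pushN W f ((cN W Y hB) ^ r) = c • 1) {p : ℕ}
    (hp : 2 * p ≤ X.dim)
    (hpos : Arbitrarily fun t => ∀ x ∈ grN W Y p,
      (cN W Y (ops.pull_mem f hA) + t • cN W Y hB) ^ (Y.dim - 2 * p + 1) * x = 0 →
      0 ≤ (-1 : ℚ) ^ p * degN W Y ((cN W Y (ops.pull_mem f hA) + t • cN W Y hB) ^
        (Y.dim - 2 * p) * (x * x)))
    {x : NA W X} (hx : x ∈ grN W X p) (hx0 : (cN W X hA) ^ (X.dim - 2 * p + 1) * x = 0) :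
    0 ≤ (-1 : ℚ) ^ p * degN W X ((cN W X hA) ^ (X.dim - 2 * p) * (x * x)) := by
  classical
  set α := cN W Y (ops.pull_mem f hA) with hα
  set β := cN W Y hB with hβ
  have hαA : pullN W f (cN W X hA) = α := by
    rw [hα]
    apply cN_mk
    exact (W.cl_pull f A).symm
  set υ := pullN W f x with hυ
  have hυm : υ ∈ grN W Y p := pullN_mem f hx
  set q := Y.dim - 2 * p with hq
  have hrq : r ≤ q := by omega
  have hqr : q - r = X.dim - 2 * p := by omega
  have hαυ : α ^ (q - r + 1) * υ = 0 := by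
    rw [hqr, ← hαA, ← map_pow, ← map_mul, hx0, map_zero]
  -- the cohomology class
  obtain ⟨z, hz, hzx⟩ := mem_grN.1 hx
  have hξ : psi hD υ = W.map f (W.cl X z) := by
    rw [hυ, ← hzx]
    rfl
  have hξm : W.cl X z ∈ W.gr X (2 * p) := W.cl_mem hz
  have hh0 : ((aY W f A) ^ (q - r + 1)) (W.map f (W.cl X z)) = 0 := by
    rw [LinearMap.pow_mulLeft, LinearMap.mulLeft_apply, ← hξ]
    have e1 : W.map f (W.cl X A) = psi hD α := by
      rw [hα, psi_cN, W.cl_pull]
    rw [e1, ← map_pow, ← map_mul, hαυ, map_zero]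
  have hzInL : InL (CW P) (r + 1) (2 * p + 2 * (q + 1))
      (sq hD ((DY (W := W) f hA hB) ^ (q + 1) * C υ)) := by
    have h1 := base_inL P hA hB hr hξm hrq hh0 (fun i => (((q + 1).choose i : ℚ) : W.K))
    intro i
    have h2 := h1 i
    dsimp only at h2
    rw [sq, coeff_Dp_pow]
    by_cases hi : i ≤ q + 1
    · rw [if_pos hi] at h2
      rw [psi_smul, map_mul, map_mul, map_pow, map_pow, psi_cN, psi_cN, W.cl_pull, hξ]
      convert h2 using 2
      rw [LinearMap.pow_mulLeft, LinearMap.pow_mulLeft, LinearMap.mulLeft_apply,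
        LinearMap.mulLeft_apply, mul_assoc]
    · rw [Nat.choose_eq_zero_of_lt (by omega), Nat.cast_zero, zero_smul, map_zero]
      exact Submodule.zero_mem _
  -- the solution
  obtain ⟨δ, hδ, y, hy, hyeq, hval⟩ : ∃ δ : ℚ[X], δ ≠ 0 ∧ ∃ y : (NA W Y)[X],
      (∀ k, (DY (W := W) f hA hB * y).coeff k ∈ grN W Y p) ∧
      (DY (W := W) f hA hB) ^ (q + 2) * y =
        (DY (W := W) f hA hB) ^ (q + 1) * C υ * δ.map (algebraMap ℚ (NA W Y)) ∧
      ∀ m < r + 1 + δ.natTrailingDegree,
        degN W Y (((DY (W := W) f hA hB) ^ (q + 1) * C υ * y).coeff m) = 0 := by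
    by_cases hp0 : p = 0
    · refine ⟨1, one_ne_zero, 0, ?_, ?_, ?_⟩
      · intro k; rw [mul_zero, coeff_zero]; exact Submodule.zero_mem _
      · have h1 : (DY (W := W) f hA hB) ^ (q + 1) * C υ = 0 := by
          ext k
          have h2 := coeff_mem hA hB (coeff_C_mem hυm) (q + 1) (f := f) k
          rw [grN_eq_bot (by omega), Submodule.mem_bot] at h2
          rw [h2, coeff_zero]
        rw [h1, mul_zero, zero_mul]
      · intro m _
        rw [mul_zero, coeff_zero, map_zero]
    · obtain ⟨j, rfl⟩ : ∃ j, p = j + 1 := ⟨p - 1, by omega⟩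
      have hM : 2 * j + (q + 2) = Y.dim := by omega
      have : Module.Finite ℚ (grN W Y j) := finN j (by omega)
      obtain ⟨δ, hδ, y, hy, hyeq⟩ := exists_solution (degN W Y) (grN W Y j)
        (grN W Y (Y.dim - j)) (by
          intro x hx h0
          apply nondegN (j := j) (by omega) hx
          intro v hv
          rw [mul_comm]
          exact h0 v hv) ((DY (W := W) f hA hB) ^ (q + 2)) (by
          intro y hy k
          have := coeff_mem hA hB hy (q + 2) (f := f) k
          rwa [show j + (q + 2) = Y.dim - j by omega] at this) (by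
          intro y hy h0
          exact injW P hA hB hD hM hy h0) ((DY (W := W) f hA hB) ^ (q + 1) * C υ) (by
          intro k
          have := coeff_mem hA hB (coeff_C_mem hυm) (q + 1) (f := f) k
          rwa [show j + 1 + (q + 1) = Y.dim - j by omega] at this)
      refine ⟨δ, hδ, y, ?_, hyeq, ?_⟩
      · intro k
        have := coeff_mem hA hB hy 1 (f := f) k
        rwa [pow_one] at this
      · -- the filtration of y
        have h1 : InL (CW P) (r + 1 + 2 * δ.natTrailingDegree) (2 * j + 2 * (q + 2 : ℕ))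
            (sq hD ((DY (W := W) f hA hB) ^ (q + 2) * y)) := by
          intro m
          rw [hyeq, sq, coeff_mul, map_sum]
          apply Submodule.sum_mem
          intro ik hik
          have hik' := Finset.HasAntidiagonal.mem_antidiagonal.1 hik
          rw [coeff_map]
          by_cases hk : ik.2 < δ.natTrailingDegree
          · rw [coeff_eq_zero_of_lt_natTrailingDegree hk, map_zero, mul_zero, map_zero]
            exact Submodule.zero_mem _
          · rw [mul_comm _ ((algebraMap ℚ (NA W Y)) _), ← Algebra.smul_def, psi_smul]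
            apply Submodule.smul_mem
            have h2 := hzInL ik.1
            rw [sq] at h2
            have e1 : 2 * ((j + 1 : ℕ) : ℤ) + 2 * ((q : ℤ) + 1) =
                2 * (j : ℤ) + 2 * ((q + 2 : ℕ) : ℤ) := by push_cast; ring
            rw [e1] at h2
            exact PD.filt_mono (by omega) h2
        have h2 := strictW P hA hB hD hM hy h1
        intro m hm
        rw [coeff_mul, map_sum]
        apply Finset.sum_eq_zero
        intro ik hik
        have hik' := Finset.HasAntidiagonal.mem_antidiagonal.1 hik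
        apply degN_psi hD
        rw [map_mul]
        have h3 := hzInL ik.1
        have h4 := h2 ik.2
        rw [sq] at h3 h4
        have H := pdW P hA hB
        let bl : W.H Y →ₗ[W.K] W.H Y →ₗ[W.K] W.K := (LinearMap.mul W.K (W.H Y)).compr₂ (W.tr Y)
        refine H.orth_filt (B := bl) ?_ ?_ ?_ h3 h4
        · intro x y
          show W.tr Y (W.map f (W.cl X A) * x * y) = W.tr Y (x * (W.map f (W.cl X A) * y))
          rw [W.even_comm (W.map_mem f (W.cl_mem hA)) x, mul_assoc]
        · intro β γ i l hil x hx y hy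
          have hx' := CW_le P hx
          have hy' := CW_le P hy
          show W.tr Y (x * y) = 0
          by_cases hi : 0 ≤ i
          · by_cases hl : 0 ≤ l
            · rw [grZ, if_pos hi] at hx'
              rw [grZ, if_pos hl] at hy'
              exact W.tr_eq_zero (W.mul_mem hx' hy') (by omega)
            · rw [grZ_of_neg (by omega), Submodule.mem_bot] at hy'
              rw [hy', mul_zero, map_zero]
          · rw [grZ_of_neg (by omega), Submodule.mem_bot] at hx'
            rw [hx', zero_mul, map_zero]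
        · omega
  have key := core (degN W Y) ((-1 : ℚ) ^ p) α β υ q r hrq hαυ δ hδ y hyeq hval (by
    intro ε hε
    obtain ⟨t, ht0, ht, h1⟩ := hpos ε hε
    refine ⟨t, ht0, ht, fun c' hc' => h1 _ ?_ hc'⟩
    refine Submodule.sub_mem _ hυm (Submodule.smul_mem _ _ ?_)
    have h2 : (α + t • β) * y.eval (algebraMap ℚ (NA W Y) t) =
        (DY (W := W) f hA hB * y).eval (algebraMap ℚ (NA W Y) t) := by
      rw [eval_mul, eval_Dp]
    rw [h2, eval_eq_sum_range]
    apply Submodule.sum_mem
    intro i _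
    rw [← map_pow, mul_comm, ← Algebra.smul_def]
    exact Submodule.smul_mem _ _ (hy i))
  have h5 : degN W Y (α ^ (q - r) * β ^ r * (υ * υ)) =
      c * degN W X ((cN W X hA) ^ (X.dim - 2 * p) * (x * x)) := by
    have e1 : α ^ (q - r) * β ^ r * (υ * υ) =
        β ^ r * pullN W f ((cN W X hA) ^ (X.dim - 2 * p) * (x * x)) := by
      rw [map_mul, map_pow, map_mul, hαA, ← hυ, hqr]
      ring
    rw [e1, ← degN_push f, ← pushN_mul, hpush, smul_mul_assoc, one_mul, map_smul, smul_eq_mul]
  rw [h5] at key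
  have e2 : (-1 : ℚ) ^ p * (c * degN W X ((cN W X hA) ^ (X.dim - 2 * p) * (x * x))) =
      c * ((-1 : ℚ) ^ p * degN W X ((cN W X hA) ^ (X.dim - 2 * p) * (x * x))) := by ring
  rw [e2] at key
  exact nonneg_of_mul_nonneg_right key hc

end Pool.Agent.H90.DS
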