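import Pool.Agent.H90.DS.Desc
import Pool.Agent.H90.BU.GeoE

/-!
# The descent of the standard conjecture of Hodge type
-/

open CategoryTheory AlgebraicGeometry Finset Polynomial

set_option autoImplicit false
set_option linter.unusedSectionVars false

universe u v

namespace Pool.Agent.H90.DS

open Pool.Agent.H914 Pool.Agent.W498.Dom VarClass Obj WeilCohomology
open Pool.Agent.R910.Mix (ratAlg algSet AQ retr AQj mkA degQ degQ_apply resA resA_coe coe_smul'
  tr_eq)
open Pool.Agent.R910.Num (numI NA mkN degN grN mem_grN mem_numI mkN_surj mkN_eq_zero degN_mk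
  AQ_induction cl_eq_zero numI_iff grN_mul nondegN finN coe_pow_mul degQ_mk_mul degQ_mk_mul')
open Pool.Agent.H90.BU (sg sg_sq sg_natCast HL HRat LS prim mem_prim)
open Pool.Agent.H90.BU.Geo
open Pool.Agent.H447 (tr_mul_cl)

variable {k : Type u} [Field k] {𝒱 : VarClass k} {ops : CycleOps 𝒱}
  {W : WeilCohomology.{u, v} ops} {X Y : 𝒱.Obj} {f : Y ⟶ X} {A : X.Cycles} {B : Y.Cycles}

attribute [local instance] ratAlg

lemma hpush {r : ℕ} (H : IsSurjective W f B r) (hB : Y.IsCyc 1 B) :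
    ∃ c : ℚ, 0 < c ∧ pushN W f ((cN W Y hB) ^ r) = c • 1 := by
  obtain ⟨c, hc, h⟩ := H.degree_pos
  refine ⟨c, hc, ?_⟩
  have hp : Y.IsCyc r (divPow ops B r Y.V.fundCycle) :=
    divPow_cyc hB Y.V.fundCycle_mem r (zero_add r)
  rw [← cN_pow_fund W hB hp]
  have h1 : pushA W f (mkA (W := W) ⟨_, hp, rfl⟩) = c • (1 : AQ W X) := by
    apply Subtype.ext
    rw [pushA_coe, coe_smul']
    show W.push f (W.cl Y (divPow ops B r Y.V.fundCycle)) = (c : W.K) • (1 : W.H X)
    rw [← W.cl_push, h]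
  unfold cN
  rw [pushN_mk, h1, map_smul, map_one]

lemma dominates {r : ℕ} (H : IsSurjective W f B r) (hB : Y.IsCyc 1 B) : Dominates W Y X := by
  obtain ⟨c, hc, h⟩ := H.degree_pos
  have hp : Y.IsCyc r (divPow ops B r Y.V.fundCycle) :=
    divPow_cyc hB Y.V.fundCycle_mem r (zero_add r)
  refine ⟨f, r, _, (c : W.K), hp, ?_, ?_⟩
  · exact_mod_cast hc.ne'
  · rw [← W.cl_push, h]

lemma sumDiv_cyc (hA : X.IsCyc 1 A) (hB : Y.IsCyc 1 B) (t : ℚ) :
    Y.IsCyc 1 (sumDiv ops f A B t) :=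
  (ops.pull_mem f hA).add (hB.smul t)

lemma sumDiv_cN (hA : X.IsCyc 1 A) (hB : Y.IsCyc 1 B) (t : ℚ) :
    cN W Y (sumDiv_cyc (f := f) (ops := ops) hA hB t) =
      cN W Y (ops.pull_mem f hA) + t • cN W Y hB := by
  symm
  have h2 : cN W Y (ops.pull_mem f hA) + t • cN W Y hB =
      mkN W Y (mkA (W := W) ⟨_, ops.pull_mem f hA, rfl⟩ + t • (mkA (W := W) ⟨_, hB, rfl⟩)) := by
    rw [map_add, map_smul]
    rfl
  rw [h2]
  apply cN_mk
  unfold sumDiv
  rw [Subalgebra.coe_add, coe_smul', map_add, W.cl_smul]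
  rfl

lemma pos_of {D : X.Cycles} (hD : X.IsCyc 1 D) {p : ℕ} (hp : 2 * p ≤ X.dim)
    (h : HodgeTypeIn ops X D p) {x : NA W X} (hx : x ∈ grN W X p)
    (h0 : (cN W X hD) ^ (X.dim - 2 * p + 1) * x = 0) :
    0 ≤ (-1 : ℚ) ^ p * degN W X ((cN W X hD) ^ (X.dim - 2 * p) * (x * x)) := by
  by_cases hx0 : x = 0
  · rw [hx0, mul_zero, mul_zero, map_zero, mul_zero]
  · have h1 := (HRat_iff_all (W := W) hD (p := p)).2 h (X.dim - 2 * p) (by omega) x
      (by rw [gz_nat]; exact hx) (by rw [mulLeft_pow_apply]; exact h0) hx0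
    rw [bN_apply, mulLeft_pow_apply, sg_natCast] at h1
    rw [show (cN W X hD) ^ (X.dim - 2 * p) * (x * x) =
      x * ((cN W X hD) ^ (X.dim - 2 * p) * x) by ring]
    exact h1.le

/-- The numerical hard Lefschetz theorem. -/
lemma numHL {D : X.Cycles} (hD : X.IsCyc 1 D) (hN : HomEqNum W X) (hH : HardLefschetz W X D) :
    HL (X.dim : ℤ) (gz W X) (LinearMap.mulLeft ℚ (cN W X hD)) := by
  intro j a hja x hx h0
  by_cases hj : j < 0
  · rw [gz_neg hj, Submodule.mem_bot] at hx
    exact hx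
  · obtain ⟨p, rfl⟩ : ∃ p : ℕ, j = p := ⟨j.toNat, by omega⟩
    rw [gz_nat] at hx
    apply psi_inj hN
    rw [mulLeft_pow_apply] at h0
    have h1 := psi_mem hN hx
    apply (hH (2 * p) (by omega)).1 _ h1
    rw [LinearMap.pow_mulLeft, LinearMap.mulLeft_apply, show X.dim - 2 * p = a by omega,
      ← psi_cN hN hD, ← map_pow, ← map_mul, h0, map_zero]

/-- The form on the primitive part. -/
lemma definite {D : X.Cycles} (hD : X.IsCyc 1 D)
    (hL : HL (X.dim : ℤ) (gz W X) (LinearMap.mulLeft ℚ (cN W X hD))) {p : ℕ}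
    (hp : 2 * p ≤ X.dim)
    (h : ∀ x ∈ grN W X p, (cN W X hD) ^ (X.dim - 2 * p + 1) * x = 0 →
      0 ≤ (-1 : ℚ) ^ p * degN W X ((cN W X hD) ^ (X.dim - 2 * p) * (x * x))) :
    HodgeTypeIn ops X D p := by
  rw [← HRat_iff_all (W := W) hD]
  have S := lsN (W := W) (X := X) (cN_mem (W := W) hD)
  intro a ha x hx h0 hne
  have ha' : a = X.dim - 2 * p := by omega
  set L := LinearMap.mulLeft ℚ (cN W X hD) with hLdef
  have hsemi : ∀ y ∈ prim (X.dim : ℤ) (gz W X) L (p : ℤ),
      0 ≤ sg (p : ℤ) * bN W X y ((L ^ a) y) := by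
    intro y hy
    obtain ⟨h1, h2⟩ := (mem_prim ha).1 hy
    have h3 := h y (by rw [← gz_nat]; exact h1) (by rw [← ha', ← mulLeft_pow_apply]; exact h2)
    rw [bN_apply, mulLeft_pow_apply, sg_natCast, ha']
    rwa [show (cN W X hD) ^ (X.dim - 2 * p) * (y * y) =
      y * ((cN W X hD) ^ (X.dim - 2 * p) * y) by ring] at h3
  have hxP : x ∈ prim (X.dim : ℤ) (gz W X) L (p : ℤ) := (mem_prim ha).2 ⟨hx, h0⟩
  rcases (hsemi x hxP).lt_or_eq with h1 | h1
  · exact h1
  · exfalso
    apply hne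
    apply S.prim_nondeg hL ha hxP
    intro y hy
    by_contra hxy
    set s := sg (p : ℤ) with hs
    have hss : s * s = 1 := sg_sq _
    have hsne : s ≠ 0 := fun h => by rw [h] at hss; norm_num at hss
    set b := s * bN W X x ((L ^ a) y) with hb
    set c := s * bN W X y ((L ^ a) y) with hc
    have hbne : b ≠ 0 := mul_ne_zero hsne hxy
    have hc0 : 0 ≤ c := hsemi y hy
    have hsymm : s * bN W X y ((L ^ a) x) = b := by
      rw [hb, S.symm, S.adj_pow]
    -- the value at u x + y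
    have h2 : ∀ u : ℚ, 0 ≤ 2 * u * b + c := by
      intro u
      have h3 := hsemi (u • x + y) (Submodule.add_mem _ (Submodule.smul_mem _ _ hxP) hy)
      have h4 : s * bN W X (u • x + y) ((L ^ a) (u • x + y)) =
          u * u * (s * bN W X x ((L ^ a) x)) + u * (s * bN W X x ((L ^ a) y)) +
            u * (s * bN W X y ((L ^ a) x)) + s * bN W X y ((L ^ a) y) := by
        simp only [map_add, map_smul, LinearMap.add_apply, LinearMap.smul_apply, smul_eq_mul]
        ring
      rw [h4, ← h1, hsymm, ← hb, ← hc] at h3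
      linarith
    have h5 := h2 (-(c + 1) / (2 * b))
    have h6 : 2 * (-(c + 1) / (2 * b)) * b = -(c + 1) := by
      field_simp
    rw [h6] at h5
    linarith

/-- The descent of the conjecture of Hodge type in one codimension. -/
theorem descend (P : PerverseDecomposition W f A B) (hA : X.IsCyc 1 A) (hB : Y.IsCyc 1 B)
    (hHL : HardLefschetz W X A) {r : ℕ} (H : IsSurjective W f B r) (hD : HomEqNum W Y) {p : ℕ}
    (h : Arbitrarily fun t => HodgeTypeIn ops Y (sumDiv ops f A B t) p) :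
    HodgeTypeIn ops X A p := by
  by_cases hp : 2 * p ≤ X.dim
  · have hDX : HomEqNum W X := hD.image (dominates H hB)
    obtain ⟨c, hc, hpush⟩ := hpush H hB
    apply definite hA (numHL hA hDX hHL) hp
    intro x hx h0
    apply semi P hA hB hD H.dim_eq hc hpush hp _ hx h0
    intro ε hε
    obtain ⟨t, ht0, ht, h1⟩ := h ε hε
    refine ⟨t, ht0, ht, fun x hx h0 => ?_⟩
    rw [← sumDiv_cN hA hB t] at h0 ⊢
    exact pos_of _ (by have := H.dim_eq; omega) h1 hx h0
  · intro z hz
    exact absurd hz.1 hp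

/-- Products with powers of a divisor commute with the trace form. -/
lemma tr_divPow {D : Y.Cycles} (hD : Y.IsCyc 1 D) (m : ℕ) (z w : Y.Cycles) :
    W.tr Y (W.cl Y (divPow ops D m z) * W.cl Y w) =
      W.tr Y (W.cl Y z * W.cl Y (divPow ops D m w)) := by
  rw [cl_divPow, cl_divPow, LinearMap.pow_mulLeft, LinearMap.mulLeft_apply,
    LinearMap.mulLeft_apply]
  have h1 : Commute (W.cl Y D) (W.cl Y z) := W.even_comm (p := 1) (W.cl_mem hD) _
  rw [(h1.pow_left m).eq, mul_assoc]

/-- The conjectures `A` and of Hodge type imply the conjecture `D`. -/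
theorem D_of_AH {D : Y.Cycles} (hD : Y.IsCyc 1 D) (hA : LefschetzA W Y D)
    (hH : HodgeType W Y D) : HomEqNum W Y := by
  have key : ∀ j, 2 * j ≤ Y.dim → ∀ z, Y.IsCyc j z →
      (∀ w, Y.IsCyc (Y.dim - j) w → W.tr Y (W.cl Y z * W.cl Y w) = 0) →
      W.cl Y (divPow ops D (Y.dim - 2 * j + 1) z) = 0 → W.cl Y z = 0 := by
    intro j hj z hz h0 hp
    by_contra hne
    have h1 := hH j hj z hz hp hne
    have h2 : Y.IsCyc (Y.dim - j) (divPow ops D (Y.dim - 2 * j) z) :=
      divPow_cyc hD hz _ (by omega)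
    have h3 := h0 _ h2
    rw [tr_mul_cl hz h2 (by omega)] at h3
    have h4 : Y.V.degCycle (ops.mul z (divPow ops D (Y.dim - 2 * j) z)) = 0 := by
      exact_mod_cast h3
    rw [h4, mul_zero] at h1
    exact lt_irrefl _ h1
  have low : ∀ j, 2 * j ≤ Y.dim → ∀ z, Y.IsCyc j z →
      (∀ w, Y.IsCyc (Y.dim - j) w → W.tr Y (W.cl Y z * W.cl Y w) = 0) → W.cl Y z = 0 := by
    intro j
    induction j with
    | zero =>
      intro hj z hz h0
      apply key 0 hj z hz h0
      exact cl_eq_zero (j := Y.dim + 1) (by omega) (divPow_cyc hD hz _ (by omega))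
    | succ j ih =>
      intro hj z hz h0
      obtain ⟨z1, hz1, h1⟩ := hA j (by omega) (divPow ops D (Y.dim - 2 * (j + 1) + 1) z)
        (divPow_cyc hD hz _ (by omega))
      have h2 : W.cl Y z1 = 0 := by
        apply ih (by omega) z1 hz1
        intro v hv
        obtain ⟨v', hv', h3⟩ := hA j (by omega) v hv
        rw [← h3, ← tr_divPow hD, h1, tr_divPow hD]
        exact h0 _ (divPow_cyc hD hv' _ (by omega))
      apply key (j + 1) hj z hz h0
      rw [← h1, cl_divPow, h2, map_zero]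
  intro j hj z hz hnum
  have h0 : ∀ w, Y.IsCyc (Y.dim - j) w → W.tr Y (W.cl Y z * W.cl Y w) = 0 := by
    intro w hw
    rw [tr_mul_cl hz hw (by omega), hnum w hw]
    norm_num
  by_cases h2 : 2 * j ≤ Y.dim
  · exact low j h2 z hz h0
  · have hz' : Y.IsCyc (Y.dim - (Y.dim - j)) z := by
      rwa [show Y.dim - (Y.dim - j) = j by omega]
    obtain ⟨z1, hz1, h1⟩ := hA (Y.dim - j) (by omega) z hz'
    have h3 : W.cl Y z1 = 0 := by
      apply low (Y.dim - j) (by omega) z1 hz1
      intro v hv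
      obtain ⟨v', hv', h4⟩ := hA (Y.dim - j) (by omega) v hv
      rw [← h4, ← tr_divPow hD, h1]
      exact h0 v' hv'
    rw [← h1, cl_divPow, h3, map_zero]

/-- Cycles which are homologically trivial are numerically trivial. -/
lemma numZero_of_cl {p : ℕ} {z : X.Cycles} (hz : X.IsCyc p z) (h : W.cl X z = 0) :
    NumZero ops X p z := by
  intro l w hl hw
  have h1 := tr_mul_cl (W := W) hz hw hl
  rw [h, zero_mul, map_zero] at h1
  exact_mod_cast h1.symm

lemma cl_of_numZero (hN : HomEqNum W X) {p : ℕ} (hp : p ≤ X.dim) {z : X.Cycles}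
    (hz : X.IsCyc p z) (h : NumZero ops X p z) : W.cl X z = 0 :=
  hN p hp z hz (fun w hw => h _ w (by omega) hw)

/-- The conjecture of Hodge type, modulo homological and modulo numerical equivalence. -/
theorem hodgeType_iff {D : X.Cycles} (hD : X.IsCyc 1 D) (hN : HomEqNum W X) :
    HodgeType W X D ↔ ∀ p, HodgeTypeIn ops X D p := by
  constructor
  · intro h p z hz hne
    obtain ⟨hp, hzc, hz0⟩ := hz
    apply h p hp z hzc
    · have h1 : X.IsCyc (X.dim - p + 1) (divPow ops D (X.dim - 2 * p + 1) z) :=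
        divPow_cyc hD hzc _ (by omega)
      by_cases hp0 : p = 0
      · exact cl_eq_zero (by omega) h1
      · exact cl_of_numZero hN (by omega) h1 hz0
    · intro h0
      exact hne (numZero_of_cl hzc h0)
  · intro h p hp z hz h0 hne
    apply h p z ⟨hp, hz, numZero_of_cl (divPow_cyc hD hz _ (by omega)) h0⟩
    intro h1
    exact hne (cl_of_numZero hN (by omega) hz h1)

/-- The conjecture `A` from the conjecture `D`. -/
theorem lefA {D : X.Cycles} (hD : X.IsCyc 1 D) (hN : HomEqNum W X) (hH : HardLefschetz W X D) :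
    LefschetzA W X D := by
  have h := NumLefschetz_of hD (numHL hD hN hH)
  intro j hj z hz
  obtain ⟨z', hz', h0⟩ := (h j hj).2 z hz
  refine ⟨z', hz', ?_⟩
  have h1 : X.IsCyc (X.dim - j) (divPow ops D (X.dim - 2 * j) z') :=
    divPow_cyc hD hz' _ (by omega)
  have h2 : X.IsCyc (X.dim - j) (divPow ops D (X.dim - 2 * j) z' - z) := by
    rw [sub_eq_add_neg]
    have := hz.smul (-1)
    rw [neg_smul, one_smul] at this
    exact h1.add this
  have h3 := cl_of_numZero hN (by omega) h2 h0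
  rwa [map_sub, sub_eq_zero] at h3

/-- The descent of the standard conjectures. -/
theorem descend_all (P : PerverseDecomposition W f A B) (hA : X.IsCyc 1 A) (hB : Y.IsCyc 1 B)
    (hHL : HardLefschetz W X A) {r : ℕ} (H : IsSurjective W f B r)
    (h : Arbitrarily fun t => LefschetzA W Y (sumDiv ops f A B t) ∧
      HodgeType W Y (sumDiv ops f A B t)) :
    HomEqNum W X ∧ LefschetzA W X A ∧ HodgeType W X A := by
  obtain ⟨t, _, _, h1, h2⟩ := h 1 one_pos
  have hD : HomEqNum W Y := D_of_AH (sumDiv_cyc hA hB t) h1 h2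
  have hDX : HomEqNum W X := hD.image (dominates H hB)
  refine ⟨hDX, lefA hA hDX hHL, (hodgeType_iff hA hDX).2 fun p => ?_⟩
  apply descend P hA hB hHL H hD
  intro ε hε
  obtain ⟨t, ht0, ht, h3, h4⟩ := h ε hε
  exact ⟨t, ht0, ht, (hodgeType_iff (sumDiv_cyc hA hB t) hD).1 h4 p⟩

end Pool.Agent.H90.DS
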