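import Pool.Agent.H90.DS.Sl

/-!
# The filtration attached to a boundary point of a cone of Lefschetz operators
-/

set_option autoImplicit false
set_option linter.unusedSectionVars false

namespace Pool.Agent.H90.DS

open Pool.Agent.H914 Module Finset

section glue

variable {K : Type*} [Field K] {V V' : Type*} [AddCommGroup V] [Module K V] [AddCommGroup V']
  [Module K V'] {ι : Type*} [DecidableEq ι] {U : ι → Submodule K V}

/-- The linear map given by linear maps on the summands. -/
noncomputable def glue (h : DirectSum.IsInternal U) (g : ∀ p, U p →ₗ[K] V') : V →ₗ[K] V' :=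
  (DirectSum.toModule K ι V' g) ∘ₗ
    (LinearEquiv.ofBijective (DirectSum.coeLinearMap U) h).symm.toLinearMap

lemma glue_apply (h : DirectSum.IsInternal U) (g : ∀ p, U p →ₗ[K] V') {p : ι} {x : V}
    (hx : x ∈ U p) : glue h g x = g p ⟨x, hx⟩ := by
  have h1 : (LinearEquiv.ofBijective (DirectSum.coeLinearMap U) h).symm x =
      DirectSum.lof K ι (fun i => U i) p ⟨x, hx⟩ := by
    rw [LinearEquiv.symm_apply_eq]
    simp
  simp only [glue, LinearMap.comp_apply, LinearEquiv.coe_coe]
  rw [h1, DirectSum.toModule_lof]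

lemma int_ext (h : DirectSum.IsInternal U) {F G : V →ₗ[K] V'}
    (hFG : ∀ p, ∀ x ∈ U p, F x = G x) : F = G := by
  have h1 : LinearMap.eqLocus F G = ⊤ := by
    rw [eq_top_iff, ← h.submodule_iSup_eq_top]
    exact iSup_le (fun i a ha => hFG i a ha)
  ext a
  have : a ∈ LinearMap.eqLocus F G := by rw [h1]; trivial
  exact this

/-- The projections. -/
noncomputable def Pr (h : DirectSum.IsInternal U) (p : ι) : Module.End K V :=
  glue h (fun q => if q = p then (U q).subtype else 0)

lemma Pr_same (h : DirectSum.IsInternal U) {p : ι} {x : V} (hx : x ∈ U p) : Pr h p x = x := by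
  rw [Pr, glue_apply h _ hx, if_pos rfl]; rfl

lemma Pr_ne (h : DirectSum.IsInternal U) {p q : ι} {x : V} (hx : x ∈ U q) (hq : q ≠ p) :
    Pr h p x = 0 := by
  rw [Pr, glue_apply h _ hx, if_neg hq]; rfl

lemma Pr_mem (h : DirectSum.IsInternal U) (p : ι) (x : V) : Pr h p x ∈ U p := by
  have hx : x ∈ iSup U := by rw [h.submodule_iSup_eq_top]; trivial
  refine Submodule.iSup_induction U (motive := fun x => Pr h p x ∈ U p) hx ?_ ?_ ?_
  · intro q y hy
    by_cases hq : q = p
    · subst hq; rw [Pr_same h hy]; exact hy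
    · rw [Pr_ne h hy hq]; exact Submodule.zero_mem _
  · rw [map_zero]; exact Submodule.zero_mem _
  · intro y z hy hz
    rw [map_add]; exact Submodule.add_mem _ hy hz

lemma Pr_ext (h : DirectSum.IsInternal U) {x : V} (hx : ∀ p, Pr h p x = 0) : x = 0 := by
  obtain ⟨y, rfl⟩ := h.surjective x
  have hy : y = 0 := by
    apply DFinsupp.ext
    intro p
    apply Subtype.ext
    have key : ∀ z : DirectSum ι (fun i => U i),
        Pr h p (DirectSum.coeAddMonoidHom U z) = (z p : V) := by
      intro z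
      induction z using DirectSum.induction_on with
      | zero => simp
      | of i u =>
        rw [DirectSum.coeAddMonoidHom_of]
        by_cases hi : i = p
        · subst hi
          rw [Pr_same h u.2, DirectSum.of_eq_same]
        · rw [Pr_ne h u.2 hi, DirectSum.of_eq_of_ne _ _ _ (Ne.symm hi)]; rfl
      | add a b ha hb => rw [map_add, map_add, ha, hb]; rfl
    rw [← key y, hx p]; rfl
  rw [hy, map_zero]

lemma Pr_ext' (h : DirectSum.IsInternal U) {x y : V} (hx : ∀ p, Pr h p x = Pr h p y) : x = y := by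
  rw [← sub_eq_zero]
  apply Pr_ext h
  intro p
  rw [map_sub, hx p, sub_self]

lemma finite_supp [Module.Finite K V] (h : DirectSum.IsInternal U) :
    Set.Finite {p | U p ≠ ⊥} := by
  have := h.submodule_iSupIndep
  exact WellFoundedGT.finite_ne_bot_of_iSupIndep this

lemma mem_iff_Pr [Module.Finite K V] (h : DirectSum.IsInternal U) (S : Set ι) {x : V} :
    x ∈ ⨆ p ∈ S, U p ↔ ∀ p, p ∉ S → Pr h p x = 0 := by
  constructor
  · intro hx p hp
    refine Submodule.iSup_induction (fun p => ⨆ _ : p ∈ S, U p)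
      (motive := fun x => Pr h p x = 0) hx ?_ (map_zero _) ?_
    · intro q y hy
      by_cases hq : q ∈ S
      · simp only [hq, iSup_pos] at hy
        exact Pr_ne h hy (fun h' => hp (h' ▸ hq))
      · simp only [hq, iSup_neg, not_false_eq_true, Submodule.mem_bot] at hy
        rw [hy, map_zero]
    · intro y z hy hz
      rw [map_add, hy, hz, add_zero]
  · intro hx
    have hs : x = ∑ p ∈ (finite_supp h).toFinset, Pr h p x := by
      apply Pr_ext' h
      intro p
      rw [map_sum]
      by_cases hp : U p = ⊥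
      · rw [Finset.sum_eq_zero]
        · have := Pr_mem h p x
          rw [hp, Submodule.mem_bot] at this
          exact this
        · intro q _
          have := Pr_mem h p (Pr h q x)
          rw [hp, Submodule.mem_bot] at this
          exact this
      · rw [Finset.sum_eq_single p]
        · rw [Pr_same h (Pr_mem h p x)]
        · intro q _ hq
          exact Pr_ne h (Pr_mem h q x) hq
        · intro h'
          exact absurd ((finite_supp h).mem_toFinset.2 hp) h'
    rw [hs]
    apply Submodule.sum_mem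
    intro p _
    by_cases hp : p ∈ S
    · exact Submodule.mem_iSup_of_mem p (Submodule.mem_iSup_of_mem hp (Pr_mem h p x))
    · rw [hx p hp]; exact Submodule.zero_mem _

end glue

/-- The filtration attached to the decomposition `C`. -/
def filt {K : Type*} [Field K] {V : Type*} [AddCommGroup V] [Module K V]
    (C : ℤ → ℤ → Submodule K V) (β i : ℤ) : Submodule K V :=
  ⨆ γ ≤ β, C γ i

variable {K : Type*} [Field K] [CharZero K] {V : Type*} [AddCommGroup V] [Module K V]

/-- A space with two commuting operators `a`, `b` and a decomposition `C` such that `C` is stable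
under `a`, while `b` increases the first index by at most `2`, and both have the hard Lefschetz
property. -/
structure PD (C : ℤ → ℤ → Submodule K V) (N : ℤ) (a b : Module.End K V) : Prop where
  int : DirectSum.IsInternal (fun p : ℤ × ℤ => C p.1 p.2)
  comm : Commute a b
  amap : ∀ β i, ∀ x ∈ C β i, a x ∈ C β (i + 2)
  bmap : ∀ β i, ∀ x ∈ C β i, b x ∈ filt C (β + 2) (i + 2)
  ainj : ∀ (β : ℤ) (l : ℕ), ∀ x ∈ C β (N + β - l), (a ^ l) x = 0 → x = 0
  asurj : ∀ (β : ℤ) (l : ℕ), ∀ z ∈ C β (N + β + l), ∃ x ∈ C β (N + β - l), (a ^ l) x = z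
  binj : ∀ (m : ℕ) (i : ℤ), ∀ x ∈ C (-m) i, (b ^ m) x ∈ filt C (m - 1) (i + 2 * m) → x = 0
  bsurj : ∀ (m : ℕ) (i : ℤ), ∀ z ∈ C m (i + 2 * m), ∃ x ∈ C (-m) i,
    (b ^ m) x - z ∈ filt C (m - 1) (i + 2 * m)

namespace PD

variable {C : ℤ → ℤ → Submodule K V} {N : ℤ} {a b : Module.End K V}

lemma mem_filt [Module.Finite K V] (H : PD C N a b) {β i : ℤ} {x : V} : x ∈ filt C β i ↔
    ∀ p : ℤ × ℤ, ¬ (p.1 ≤ β ∧ p.2 = i) → Pr H.int p x = 0 := by
  have h1 := mem_iff_Pr H.int {p : ℤ × ℤ | p.1 ≤ β ∧ p.2 = i} (x := x)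
  have h2 : filt C β i = ⨆ p ∈ {p : ℤ × ℤ | p.1 ≤ β ∧ p.2 = i}, C p.1 p.2 := by
    apply le_antisymm
    · refine iSup_le fun γ => iSup_le fun hγ => ?_
      exact le_iSup_of_le (γ, i) (le_iSup_of_le ⟨hγ, rfl⟩ le_rfl)
    · refine iSup_le fun p => iSup_le fun hp => ?_
      obtain ⟨h1, h2⟩ := hp
      rw [h2]
      exact le_iSup_of_le p.1 (le_iSup_of_le h1 le_rfl)
  rw [h2, h1]
  rfl

lemma filt_mono {β γ i : ℤ} (h : β ≤ γ) : filt C β i ≤ filt C γ i :=
  iSup_le fun δ => iSup_le fun hδ => le_iSup_of_le δ (le_iSup_of_le (hδ.trans h) le_rfl)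

lemma le_filt {β γ i : ℤ} (h : β ≤ γ) : C β i ≤ filt C γ i :=
  le_iSup_of_le β (le_iSup_of_le h le_rfl)

lemma filt_induction {β i : ℤ} {p : V → Prop} (h0 : p 0) (hadd : ∀ x y, p x → p y → p (x + y))
    (hC : ∀ γ ≤ β, ∀ x ∈ C γ i, p x) {x : V} (hx : x ∈ filt C β i) : p x := by
  refine Submodule.iSup_induction (fun γ => ⨆ _ : γ ≤ β, C γ i) (motive := p) hx ?_ h0 hadd
  intro γ y hy
  by_cases hγ : γ ≤ β
  · simp only [hγ, iSup_pos] at hy
    exact hC γ hγ y hy
  · simp only [hγ, iSup_neg, not_false_eq_true, Submodule.mem_bot] at hy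
    rw [hy]; exact h0

lemma a_filt (H : PD C N a b) {β i : ℤ} {x : V} (hx : x ∈ filt C β i) :
    a x ∈ filt C β (i + 2) := by
  refine filt_induction (p := fun x => a x ∈ filt C β (i + 2)) ?_ ?_ ?_ hx
  · rw [map_zero]; exact Submodule.zero_mem _
  · intro x y h1 h2; rw [map_add]; exact Submodule.add_mem _ h1 h2
  · intro γ hγ y hy
    exact le_filt hγ (H.amap γ i y hy)

lemma b_filt (H : PD C N a b) {β i : ℤ} {x : V} (hx : x ∈ filt C β i) :
    b x ∈ filt C (β + 2) (i + 2) := by
  refine filt_induction (p := fun x => b x ∈ filt C (β + 2) (i + 2)) ?_ ?_ ?_ hx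
  · rw [map_zero]; exact Submodule.zero_mem _
  · intro x y h1 h2; rw [map_add]; exact Submodule.add_mem _ h1 h2
  · intro γ hγ y hy
    exact filt_mono (by omega) (H.bmap γ i y hy)

/-- The leading part of `b`. -/
noncomputable def b0 (H : PD C N a b) : Module.End K V :=
  glue H.int (fun p => (Pr H.int (p.1 + 2, p.2 + 2)) ∘ₗ b ∘ₗ (C p.1 p.2).subtype)

lemma b0_apply (H : PD C N a b) {β i : ℤ} {x : V} (hx : x ∈ C β i) :
    H.b0 x = Pr H.int (β + 2, i + 2) (b x) :=
  glue_apply H.int _ (p := (β, i)) hx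

lemma b0_mem (H : PD C N a b) {β i : ℤ} {x : V} (hx : x ∈ C β i) :
    H.b0 x ∈ C (β + 2) (i + 2) := by
  rw [H.b0_apply hx]
  exact Pr_mem H.int (β + 2, i + 2) (b x)

variable [Module.Finite K V]

lemma filt_pred (H : PD C N a b) {β i : ℤ} {x : V} (hx : x ∈ filt C β i)
    (h0 : Pr H.int (β, i) x = 0) : x ∈ filt C (β - 1) i := by
  rw [H.mem_filt] at hx ⊢
  intro p hp
  by_cases h1 : p.1 ≤ β ∧ p.2 = i
  · have h2 : p = (β, i) := by
      obtain ⟨p1, p2⟩ := p
      simp only [not_and] at hp h1 ⊢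
      have h3 : ¬ p1 ≤ β - 1 := fun h' => hp h' h1.2
      rw [h1.2, show p1 = β by omega]
    rw [h2]; exact h0
  · exact hx p h1

lemma Pr_of_lt (H : PD C N a b) {β γ i j : ℤ} {x : V} (hx : x ∈ filt C β i) (h : β < γ) :
    Pr H.int (γ, j) x = 0 := by
  rw [H.mem_filt] at hx
  exact hx _ (by simp only [not_and]; omega)

lemma Pr_of_ne (H : PD C N a b) {β γ i j : ℤ} {x : V} (hx : x ∈ filt C β i) (h : j ≠ i) :
    Pr H.int (γ, j) x = 0 := by
  rw [H.mem_filt] at hx
  exact hx _ (by simp only [not_and]; omega)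

lemma Pr_a (H : PD C N a b) (β i : ℤ) (x : V) :
    Pr H.int (β, i + 2) (a x) = a (Pr H.int (β, i) x) := by
  have : (Pr H.int (β, i + 2)) ∘ₗ a = a ∘ₗ (Pr H.int (β, i)) := by
    apply int_ext H.int
    intro p x hx
    rw [LinearMap.comp_apply, LinearMap.comp_apply]
    have h1 := H.amap _ _ x hx
    by_cases hp : p = (β, i)
    · subst hp
      rw [Pr_same H.int (p := (β, i + 2)) h1, Pr_same H.int (p := (β, i)) hx]
    · rw [Pr_ne H.int hx hp, map_zero]
      refine Pr_ne H.int (q := (p.1, p.2 + 2)) h1 ?_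
      intro h2
      apply hp
      rw [Prod.mk.injEq] at h2
      ext
      · exact h2.1
      · have := h2.2; dsimp only; omega
  exact LinearMap.congr_fun this x

lemma Pr_b (H : PD C N a b) {β i : ℤ} {x : V} (hx : x ∈ filt C β i) :
    Pr H.int (β + 2, i + 2) (b x) = H.b0 (Pr H.int (β, i) x) := by
  refine filt_induction (p := fun x => Pr H.int (β + 2, i + 2) (b x) =
    H.b0 (Pr H.int (β, i) x)) (by simp) ?_ ?_ hx
  · intro x y h1 h2
    rw [map_add, map_add, map_add, map_add, h1, h2]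
  · intro γ hγ y hy
    rcases hγ.lt_or_eq with h1 | h1
    · rw [Pr_ne H.int (q := (γ, i)) (p := (β, i)) hy (by
        intro h'; rw [Prod.mk.injEq] at h'; omega), map_zero]
      exact H.Pr_of_lt (H.bmap γ i y hy) (by omega)
    · subst h1
      rw [Pr_same H.int (p := (γ, i)) hy, H.b0_apply hy]

lemma a_b0 (H : PD C N a b) : Commute a H.b0 := by
  apply int_ext H.int
  intro p x hx
  rw [Module.End.mul_apply, Module.End.mul_apply, H.b0_apply hx,
    H.b0_apply (H.amap _ _ x hx), ← H.Pr_a]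
  congr 1
  have := H.comm.eq
  calc a (b x) = (a * b) x := rfl
    _ = (b * a) x := by rw [this]
    _ = b (a x) := rfl

lemma b0_pow (H : PD C N a b) {β i : ℤ} {x : V} (hx : x ∈ C β i) (m : ℕ) :
    (H.b0 ^ m) x ∈ C (β + 2 * m) (i + 2 * m) ∧
      (b ^ m) x - (H.b0 ^ m) x ∈ filt C (β + 2 * m - 1) (i + 2 * m) := by
  induction m with
  | zero => simpa using hx
  | succ m ih =>
    obtain ⟨h1, h2⟩ := ih
    have e1 : β + 2 * ((m + 1 : ℕ) : ℤ) = β + 2 * m + 2 := by push_cast; ring
    have e2 : i + 2 * ((m + 1 : ℕ) : ℤ) = i + 2 * m + 2 := by push_cast; ring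
    rw [e1, e2]
    have h3 := H.b0_mem h1
    refine ⟨by rw [pow_succ', Module.End.mul_apply]; exact h3, ?_⟩
    rw [pow_succ', pow_succ', Module.End.mul_apply, Module.End.mul_apply]
    have h4 : b ((b ^ m) x) - H.b0 ((H.b0 ^ m) x) =
        b ((b ^ m) x - (H.b0 ^ m) x) + (b ((H.b0 ^ m) x) - H.b0 ((H.b0 ^ m) x)) := by
      rw [map_sub]; abel
    rw [h4]
    apply Submodule.add_mem
    · exact filt_mono (by omega) (H.b_filt h2)
    · apply H.filt_pred
      · exact Submodule.sub_mem _ (H.bmap _ _ _ h1) (le_filt le_rfl h3)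
      · rw [map_sub, Pr_same H.int (p := (β + 2 * (m : ℤ) + 2, i + 2 * (m : ℤ) + 2)) h3,
          H.b0_apply h1, sub_self]

end PD

end Pool.Agent.H90.DS
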