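import Pool.Agent.H90.DS.Seq

/-!
# The filtration is orthogonal to itself
-/

set_option autoImplicit false
set_option linter.unusedSectionVars false

namespace Pool.Agent.H90.DS

open Pool.Agent.H914 Module Finset

variable {K : Type*} [Field K] [CharZero K] {V : Type*} [AddCommGroup V] [Module K V]

namespace PD

variable {C : ℤ → ℤ → Submodule K V} {N : ℤ} {a b : Module.End K V} [Module.Finite K V]

lemma a_pow_mem (H : PD C N a b) {β i : ℤ} {x : V} (hx : x ∈ C β i) (m : ℕ) :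
    (a ^ m) x ∈ C β (i + 2 * m) := by
  induction m with
  | zero => simpa using hx
  | succ m ih =>
    rw [pow_succ', Module.End.mul_apply]
    have := H.amap _ _ _ ih
    convert this using 2
    push_cast; ring

lemma adj_pow {B : V →ₗ[K] V →ₗ[K] K} (hB : ∀ x y, B (a x) y = B x (a y)) (m : ℕ) (x y : V) :
    B ((a ^ m) x) y = B x ((a ^ m) y) := by
  induction m generalizing x y with
  | zero => rfl
  | succ m ih =>
    rw [pow_succ', Module.End.mul_apply, hB, ih, ← Module.End.mul_apply, ← pow_succ, pow_succ']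

lemma exists_wtop (H : PD C N a b) : ∃ M : ℕ, ∀ (β : ℤ) (w : ℕ), M ≤ w → C β (N + β + w) = ⊥ := by
  obtain ⟨n, hn⟩ := ((finite_supp H.int).image (fun p => (p.2 - N - p.1).natAbs)).bddAbove
  refine ⟨n + 1, fun β w hw => ?_⟩
  by_contra hne
  have h1 : (N + β + w - N - β).natAbs ≤ n := hn ⟨(β, N + β + w), hne, rfl⟩
  omega

lemma orth_aux (H : PD C N a b) {B : V →ₗ[K] V →ₗ[K] K} (hB : ∀ x y, B (a x) y = B x (a y))
    (m : ℕ) : ∀ (M : ℕ), (∀ (β : ℤ) (w : ℕ), M ≤ w → C β (N + β + w) = ⊥) →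
    ∀ (β γ : ℤ) (w k : ℕ), M ≤ w + m → k < w → ∀ x ∈ C β (N + β + w), ∀ y ∈ C γ (N + γ - k),
      B x y = 0 := by
  induction m with
  | zero =>
    intro M hM β γ w k hw _ x hx y _
    rw [hM β w (by omega), Submodule.mem_bot] at hx
    rw [hx, map_zero, LinearMap.zero_apply]
  | succ m ih =>
    intro M hM β γ w k hw hk x hx y hy
    obtain ⟨x', hx', rfl⟩ := H.asurj β w x hx
    have h1 := H.a_pow_mem hy w
    have e1 : N + γ - k + 2 * w = N + γ + ((2 * w - k : ℕ) : ℤ) := by omega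
    rw [e1] at h1
    obtain ⟨z', hz', hz⟩ := H.asurj γ (2 * w - k) _ h1
    rw [adj_pow hB, ← hz, ← adj_pow hB]
    have h2 := H.a_pow_mem hx' (2 * w - k)
    have e2 : N + β - w + 2 * ((2 * w - k : ℕ) : ℤ) = N + β + ((w + 2 * (w - k) : ℕ) : ℤ) := by
      omega
    rw [e2] at h2
    exact ih M hM β γ (w + 2 * (w - k)) (2 * w - k) (by omega) (by omega) _ h2 _ hz'

/-- The steps with negative sum are orthogonal. -/
theorem orth (H : PD C N a b) {B : V →ₗ[K] V →ₗ[K] K} (hB : ∀ x y, B (a x) y = B x (a y))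
    (hdeg : ∀ (β γ i j : ℤ), i + j ≠ 2 * N → ∀ x ∈ C β i, ∀ y ∈ C γ j, B x y = 0)
    {β γ i j : ℤ} (hβγ : β + γ < 0) {x y : V} (hx : x ∈ C β i) (hy : y ∈ C γ j) :
    B x y = 0 := by
  obtain ⟨M, hM⟩ := H.exists_wtop
  have O1 : ∀ (β γ : ℤ) (w k : ℕ), k < w → ∀ x ∈ C β (N + β + w), ∀ y ∈ C γ (N + γ - k),
      B x y = 0 := fun β γ w k => H.orth_aux hB M M hM β γ w k (by omega)
  have O2 : ∀ (β γ : ℤ) (w k : ℕ), k < w → ∀ x ∈ C β (N + β + w), ∀ y ∈ C γ (N + γ - k),
      B y x = 0 := fun β γ w k => H.orth_aux (B := B.flip) (fun x y => (hB y x).symm)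
        M M hM β γ w k (by omega)
  by_cases hij : i + j = 2 * N
  · by_cases h1 : 0 < i - N - β
    · obtain ⟨w, hw⟩ : ∃ w : ℕ, i = N + β + w := ⟨(i - N - β).toNat, by omega⟩
      by_cases h2 : 0 < j - N - γ
      · rw [hw] at hx
        obtain ⟨x', hx', rfl⟩ := H.asurj β w x hx
        rw [adj_pow hB]
        have h3 := H.a_pow_mem hy w
        obtain ⟨w', hw'⟩ : ∃ w' : ℕ, j + 2 * w = N + γ + w' := ⟨(j + 2 * w - N - γ).toNat, by omega⟩
        rw [hw'] at h3
        exact O2 γ β w' w (by omega) _ h3 _ hx'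
      · obtain ⟨k, hk⟩ : ∃ k : ℕ, j = N + γ - k := ⟨(N + γ - j).toNat, by omega⟩
        rw [hw] at hx
        rw [hk] at hy
        exact O1 β γ w k (by omega) x hx y hy
    · obtain ⟨k, hk⟩ : ∃ k : ℕ, i = N + β - k := ⟨(N + β - i).toNat, by omega⟩
      obtain ⟨w, hw⟩ : ∃ w : ℕ, j = N + γ + w := ⟨(j - N - γ).toNat, by omega⟩
      rw [hk] at hx
      rw [hw] at hy
      exact O2 γ β w k (by omega) y hy x hx
  · exact hdeg β γ i j hij x hx y hy

/-- The same for the steps of the filtration. -/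
theorem orth_filt (H : PD C N a b) {B : V →ₗ[K] V →ₗ[K] K} (hB : ∀ x y, B (a x) y = B x (a y))
    (hdeg : ∀ (β γ i j : ℤ), i + j ≠ 2 * N → ∀ x ∈ C β i, ∀ y ∈ C γ j, B x y = 0)
    {β γ i j : ℤ} (hβγ : β + γ < 0) {x y : V} (hx : x ∈ filt C β i) (hy : y ∈ filt C γ j) :
    B x y = 0 := by
  refine filt_induction (p := fun x => B x y = 0) (by simp) ?_ ?_ hx
  · intro x x' h1 h2
    rw [map_add, LinearMap.add_apply, h1, h2, add_zero]
  · intro β' hβ' x hx
    refine filt_induction (p := fun y => B x y = 0) (by simp) ?_ ?_ hy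
    · intro y y' h1 h2
      rw [map_add, h1, h2, add_zero]
    · intro γ' hγ' y hy
      exact H.orth hB hdeg (by omega) hx hy

end PD

end Pool.Agent.H90.DS
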