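import Pool.Agent.H90.DS.Orth
import Pool.Agent.H90.G.S8.W498.Dom.Defs

/-!
# The doubly graded space attached to a perverse decomposition
-/

set_option autoImplicit false
set_option linter.unusedSectionVars false

namespace Pool.Agent.H90.DS

open Pool.Agent.H914 Pool.Agent.W498.Dom Module Finset

variable {K : Type*} [Field K] [CharZero K]

section general

variable {V : Type*} [AddCommGroup V] [Module K V]

lemma indep_of_ops {ι : Type*} {U : ι → Submodule K V} (T : ι → Module.End K V)
    (h1 : ∀ i, ∀ x ∈ U i, T i x = x) (h2 : ∀ i j, j ≠ i → ∀ x ∈ U j, T i x = 0) :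
    iSupIndep U := by
  intro i
  rw [Submodule.disjoint_def]
  intro x hx hx'
  rw [← h1 i x hx]
  refine Submodule.iSup_induction (fun j => ⨆ _ : j ≠ i, U j) (motive := fun x => T i x = 0) hx'
    ?_ (map_zero _) ?_
  · intro j y hy
    by_cases hj : j = i
    · simp only [hj, ne_eq, not_true_eq_false, iSup_false, Submodule.mem_bot] at hy
      rw [hy, map_zero]
    · simp only [ne_eq, hj, not_false_eq_true, iSup_pos] at hy
      exact h2 i j hj y hy
  · intro y z hy hz
    rw [map_add, hy, hz, add_zero]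

lemma intZ {gr : ℕ → Submodule K V} (h : DirectSum.IsInternal gr) :
    DirectSum.IsInternal (grZ gr) := by
  rw [DirectSum.isInternal_submodule_iff_iSupIndep_and_iSup_eq_top]
  constructor
  · refine indep_of_ops (fun i => if 0 ≤ i then Pr h i.toNat else 0) ?_ ?_
    · intro i x hx
      by_cases hi : 0 ≤ i
      · rw [if_pos hi]
        rw [grZ, if_pos hi] at hx
        exact Pr_same h hx
      · rw [grZ_of_neg (by omega), Submodule.mem_bot] at hx
        rw [hx, map_zero]
    · intro i j hij x hx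
      by_cases hi : 0 ≤ i
      · rw [if_pos hi]
        by_cases hj : 0 ≤ j
        · rw [grZ, if_pos hj] at hx
          exact Pr_ne h hx (by omega)
        · rw [grZ_of_neg (by omega), Submodule.mem_bot] at hx
          rw [hx, map_zero]
      · rw [if_neg hi, LinearMap.zero_apply]
  · rw [eq_top_iff, ← h.submodule_iSup_eq_top]
    apply iSup_le
    intro i
    rw [← grZ_natCast (gr := gr)]
    exact le_iSup (grZ gr) (i : ℤ)

end general

variable {A : Type*} [Ring A] [Algebra K A]

/-- The doubly graded pieces. -/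
def CP (gr piece : ℕ → Submodule K A) (m : ℕ) (β i : ℤ) : Submodule K A :=
  grZ piece (m + β) ⊓ grZ gr i

section

variable {gr piece : ℕ → Submodule K A} {R : Set A} {h e : A} {m : ℕ}
  (H : IsPerverse gr R h e m piece) (hgr : DirectSum.IsInternal gr)

include H hgr

lemma Pr_piece {p : ℤ} {x : A} (hx : x ∈ grZ piece p) (i : ℤ) :
    Pr (intZ hgr) i x ∈ grZ piece p := by
  by_cases hp : 0 ≤ p
  · lift p to ℕ using hp
    rw [grZ_natCast] at hx ⊢
    refine Submodule.iSup_induction (fun j => piece p ⊓ gr j)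
      (motive := fun x => Pr (intZ hgr) i x ∈ piece p) (H.graded p hx) ?_ ?_ ?_
    · rintro j y ⟨hy1, hy2⟩
      rw [← grZ_natCast (gr := gr)] at hy2
      by_cases hj : (j : ℤ) = i
      · rw [hj] at hy2
        rw [Pr_same _ hy2]; exact hy1
      · rw [Pr_ne _ hy2 hj]; exact Submodule.zero_mem _
    · rw [map_zero]; exact Submodule.zero_mem _
    · intro y z hy hz
      rw [map_add]; exact Submodule.add_mem _ hy hz
  · rw [grZ_of_neg (by omega), Submodule.mem_bot] at hx
    rw [hx, map_zero]; exact Submodule.zero_mem _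

lemma below_filt {a : ℕ} {z : A} (hz : z ∈ below piece a) (j : ℤ) :
    Pr (intZ hgr) j z ∈ filt (CP gr piece m) ((a : ℤ) - 1 - m) j := by
  refine Submodule.iSup_induction (fun q => ⨆ _ : q < a, piece q)
    (motive := fun z => Pr (intZ hgr) j z ∈ filt (CP gr piece m) ((a : ℤ) - 1 - m) j) hz ?_ ?_ ?_
  · intro q y hy
    by_cases hq : q < a
    · simp only [hq, iSup_pos] at hy
      have h1 : Pr (intZ hgr) j y ∈ CP gr piece m ((q : ℤ) - m) j := by
        refine ⟨?_, Pr_mem _ _ _⟩
        have e1 : (m : ℤ) + ((q : ℤ) - m) = q := by ring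
        rw [e1]
        exact Pr_piece H hgr (by rw [grZ_natCast]; exact hy) j
      exact PD.le_filt (by omega) h1
    · simp only [hq, iSup_false, Submodule.mem_bot] at hy
      rw [hy, map_zero]; exact Submodule.zero_mem _
  · rw [map_zero]; exact Submodule.zero_mem _
  · intro y z hy hz
    rw [map_add]; exact Submodule.add_mem _ hy hz

omit H hgr in
lemma filt_below {b : ℤ} {j : ℤ} {a : ℕ} (hab : (m : ℤ) + b < a) {z : A}
    (hz : z ∈ filt (CP gr piece m) b j) : z ∈ below piece a := by
  refine PD.filt_induction (C := CP gr piece m) (p := fun z => z ∈ below piece a)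
    (Submodule.zero_mem _) (fun _ _ h1 h2 => Submodule.add_mem _ h1 h2) ?_ hz
  intro γ hγ x hx12
  have hx := (Submodule.mem_inf.1 hx12).1
  by_cases h0 : 0 ≤ (m : ℤ) + γ
  · rw [grZ, if_pos h0] at hx
    exact Submodule.mem_iSup_of_mem _ (Submodule.mem_iSup_of_mem (by omega) hx)
  · rw [grZ_of_neg (by omega), Submodule.mem_bot] at hx
    rw [hx]; exact Submodule.zero_mem _

omit hgr in
lemma piece_top (hbd : ∀ i, 2 * m < i → gr i = ⊥) (hh : ∀ i, ∀ x ∈ gr i, h * x ∈ gr (i + 2))
    {p j : ℕ} (hp : 2 * m < p) {x : A} (hx : x ∈ piece p ⊓ gr j) : x = 0 := by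
  by_cases hj : 2 * m < j
  · have := (Submodule.mem_inf.1 hx).2
    rw [hbd j hj, Submodule.mem_bot] at this
    exact this
  · apply (H.hardLef p j (by omega)).1 x hx
    have h1 : ∀ l : ℕ, ((LinearMap.mulLeft K h) ^ l) x ∈ gr (j + 2 * l) := by
      intro l
      induction l with
      | zero => exact hx.2
      | succ l ih =>
        rw [pow_succ', Module.End.mul_apply]
        exact hh _ _ ih
    have h2 := h1 (p - j)
    rw [hbd _ (by omega), Submodule.mem_bot] at h2
    exact h2

/-- The doubly graded structure. -/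
theorem pd_of (hbd : ∀ i, 2 * m < i → gr i = ⊥)
    (hh : ∀ i, ∀ x ∈ gr i, h * x ∈ gr (i + 2)) (he : ∀ i, ∀ x ∈ gr i, e * x ∈ gr (i + 2))
    (hR : h ∈ R) (hcomm : h * e = e * h) :
    PD (CP gr piece m) m (LinearMap.mulLeft K h) (LinearMap.mulLeft K e) := by
  have hhZ : ∀ i : ℤ, ∀ x ∈ grZ gr i, h * x ∈ grZ gr (i + 2) := by
    intro i x hx
    by_cases h0 : 0 ≤ i
    · lift i to ℕ using h0
      rw [grZ_natCast] at hx
      rw [show ((i : ℤ) + 2) = ((i + 2 : ℕ) : ℤ) by push_cast; ring, grZ_natCast]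
      exact hh i x hx
    · rw [grZ_of_neg (by omega), Submodule.mem_bot] at hx
      rw [hx, mul_zero]; exact Submodule.zero_mem _
  have heZ : ∀ i : ℤ, ∀ x ∈ grZ gr i, e * x ∈ grZ gr (i + 2) := by
    intro i x hx
    by_cases h0 : 0 ≤ i
    · lift i to ℕ using h0
      rw [grZ_natCast] at hx
      rw [show ((i : ℤ) + 2) = ((i + 2 : ℕ) : ℤ) by push_cast; ring, grZ_natCast]
      exact he i x hx
    · rw [grZ_of_neg (by omega), Submodule.mem_bot] at hx
      rw [hx, mul_zero]; exact Submodule.zero_mem _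
  let s2 : Equiv.Perm ℤ := Equiv.addRight 2
  have hs2 : ∀ (k : ℕ) (i : ℤ), (s2 ^ k) i = i + 2 * k := by
    intro k
    induction k with
    | zero => intro i; simp
    | succ k ih =>
      intro i
      rw [pow_succ', Equiv.Perm.mul_apply, ih]
      change i + 2 * (k : ℤ) + 2 = _
      push_cast; ring
  have hPe : ∀ (k : ℕ) (i : ℤ) (x : A), Pr (intZ hgr) (i + 2 * k)
      (((LinearMap.mulLeft K e) ^ k) x) = ((LinearMap.mulLeft K e) ^ k) (Pr (intZ hgr) i x) := by
    intro k i x
    have := Pr_shift_pow (intZ hgr) s2 (e := LinearMap.mulLeft K e) heZ k i x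
    rwa [hs2] at this
  constructor
  · rw [DirectSum.isInternal_submodule_iff_iSupIndep_and_iSup_eq_top]
    constructor
    · refine indep_of_ops (fun p => (Pr (intZ H.isInternal) (m + p.1)) * (Pr (intZ hgr) p.2))
        ?_ ?_
      · intro p x hx
        rw [Module.End.mul_apply, Pr_same _ hx.2, Pr_same _ hx.1]
      · intro p q hpq x hx
        rw [Module.End.mul_apply]
        by_cases h2 : q.2 = p.2
        · have h1 : q.1 ≠ p.1 := fun h1 => hpq (Prod.ext h1 h2)
          have hx2 := hx.2
          rw [h2] at hx2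
          rw [Pr_same _ hx2]
          exact Pr_ne _ hx.1 (by omega)
        · rw [Pr_ne _ hx.2 h2, map_zero]
    · rw [eq_top_iff, ← H.isInternal.submodule_iSup_eq_top]
      apply iSup_le
      intro p
      refine (H.graded p).trans (iSup_le fun j => ?_)
      refine le_trans ?_ (le_iSup _ (((p : ℤ) - m, (j : ℤ)) : ℤ × ℤ))
      intro x hx
      refine ⟨?_, ?_⟩
      · dsimp only
        rw [show (m : ℤ) + ((p : ℤ) - m) = p by ring, grZ_natCast]
        exact hx.1
      · dsimp only
        rw [grZ_natCast]; exact hx.2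
  · apply LinearMap.ext
    intro x
    rw [Module.End.mul_apply, Module.End.mul_apply]
    simp only [LinearMap.mulLeft_apply]
    rw [← mul_assoc, hcomm, mul_assoc]
  · intro β i x hx12
    obtain ⟨h1, h2⟩ := Submodule.mem_inf.1 hx12
    refine ⟨?_, hhZ i x h2⟩
    by_cases h0 : 0 ≤ (m : ℤ) + β
    · rw [grZ, if_pos h0] at h1 ⊢
      exact H.smul_mem _ h hR x h1
    · rw [grZ_of_neg (by omega), Submodule.mem_bot] at h1
      rw [h1, map_zero]; exact Submodule.zero_mem _
  · intro β i x hx12
    obtain ⟨h1, h2⟩ := Submodule.mem_inf.1 hx12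
    by_cases h0 : 0 ≤ (m : ℤ) + β
    · rw [grZ, if_pos h0] at h1
      have h3 := below_filt H hgr (H.mul_mem _ x h1) (i + 2)
      rw [Pr_same _ (heZ i x h2)] at h3
      refine PD.filt_mono ?_ h3
      omega
    · rw [grZ_of_neg (by omega), Submodule.mem_bot] at h1
      rw [h1, map_zero]; exact Submodule.zero_mem _
  · intro β l x hx12 h3
    obtain ⟨h1, h2⟩ := Submodule.mem_inf.1 hx12
    by_cases h0 : 0 ≤ (m : ℤ) + β
    · by_cases h4 : 0 ≤ (m : ℤ) + β - l
      · rw [grZ, if_pos h0] at h1
        rw [grZ, if_pos h4] at h2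
        have h5 := (H.hardLef ((m : ℤ) + β).toNat ((m : ℤ) + β - l).toNat (by omega)).1 x ⟨h1, h2⟩
        apply h5
        rw [show ((m : ℤ) + β).toNat - ((m : ℤ) + β - l).toNat = l by omega]
        exact h3
      · rw [grZ_of_neg (by omega), Submodule.mem_bot] at h2
        exact h2
    · rw [grZ_of_neg (by omega), Submodule.mem_bot] at h1
      exact h1
  · intro β l z hx12
    obtain ⟨h1, h2⟩ := Submodule.mem_inf.1 hx12
    by_cases h0 : 0 ≤ (m : ℤ) + β
    · rw [grZ, if_pos h0] at h1
      rw [grZ, if_pos (by omega)] at h2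
      by_cases h4 : 0 ≤ (m : ℤ) + β - l
      · obtain ⟨x, hx, hxz⟩ := (H.hardLef ((m : ℤ) + β).toNat ((m : ℤ) + β - l).toNat
          (by omega)).2 z ⟨h1, by
            rw [show 2 * ((m : ℤ) + β).toNat - ((m : ℤ) + β - l).toNat =
              ((m : ℤ) + β + l).toNat by omega]
            exact h2⟩
        refine ⟨x, ⟨?_, ?_⟩, ?_⟩
        · rw [grZ, if_pos h0]; exact hx.1
        · rw [grZ, if_pos h4]; exact hx.2
        · rw [show ((m : ℤ) + β).toNat - ((m : ℤ) + β - l).toNat = l by omega] at hxz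
          exact hxz
      · have h5 : z ∈ piece ((m : ℤ) + β).toNat ⊓ gr ((m : ℤ) + β + l).toNat := ⟨h1, h2⟩
        rw [H.eq_bot _ _ (by omega), Submodule.mem_bot] at h5
        exact ⟨0, Submodule.zero_mem _, by rw [h5, map_zero]⟩
    · rw [grZ_of_neg (by omega), Submodule.mem_bot] at h1
      exact ⟨0, Submodule.zero_mem _, by rw [h1, map_zero]⟩
  · intro m' i x hx12 h3
    obtain ⟨h1, h2⟩ := Submodule.mem_inf.1 hx12
    by_cases h0 : 0 ≤ (m : ℤ) + -(m' : ℤ)
    · rw [grZ, if_pos h0] at h1
      apply (H.relHardLef ((m : ℤ) + -(m' : ℤ)).toNat (by omega)).1 x h1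
      rw [show m - ((m : ℤ) + -(m' : ℤ)).toNat = m' by omega]
      exact filt_below (a := 2 * m - ((m : ℤ) + -(m' : ℤ)).toNat) (by omega) h3
    · rw [grZ_of_neg (by omega), Submodule.mem_bot] at h1
      exact h1
  · intro m' i z hx12
    obtain ⟨h1, h2⟩ := Submodule.mem_inf.1 hx12
    rw [grZ, if_pos (by omega)] at h1
    by_cases h0 : m' ≤ m
    · obtain ⟨x, hx, hxz⟩ := (H.relHardLef (m - m') (by omega)).2 z (by
        rw [show 2 * m - (m - m') = ((m : ℤ) + (m' : ℤ)).toNat by omega]; exact h1)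
      rw [show m - (m - m') = m' by omega] at hxz
      refine ⟨Pr (intZ hgr) i x, ⟨?_, Pr_mem _ _ _⟩, ?_⟩
      · apply Pr_piece H hgr
        rw [show (m : ℤ) + -(m' : ℤ) = ((m - m' : ℕ) : ℤ) by omega, grZ_natCast]
        exact hx
      · have h3 := below_filt H hgr hxz (i + 2 * m')
        rw [map_sub, hPe, Pr_same _ h2] at h3
        refine PD.filt_mono ?_ h3
        omega
    · refine ⟨0, Submodule.zero_mem _, ?_⟩
      have h5 : z = 0 := by
        by_cases h6 : 0 ≤ i + 2 * (m' : ℤ)
        · rw [grZ, if_pos h6] at h2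
          exact piece_top H hbd hh (by omega) ⟨h1, h2⟩
        · rw [grZ_of_neg (by omega), Submodule.mem_bot] at h2
          exact h2
      rw [h5, map_zero, sub_zero]
      exact Submodule.zero_mem _

end

end Pool.Agent.H90.DS
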