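import Pool.Agent.H90.DS.Fil

/-!
# Strictness of one-parameter families of Lefschetz operators
-/

set_option autoImplicit false
set_option linter.unusedSectionVars false

namespace Pool.Agent.H90.DS

open Pool.Agent.H914 Module Finset

variable {K : Type*} [Field K] [CharZero K] {V : Type*} [AddCommGroup V] [Module K V]

section weights

variable {ι : Type*} [DecidableEq ι] {U : ι → Submodule K V}

/-- The operator with the eigenvalues `w p`. -/
noncomputable def gw (h : DirectSum.IsInternal U) (w : ι → ℤ) : Module.End K V :=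
  glue h (fun p => ((w p : ℤ) : K) • (U p).subtype)

lemma gw_apply (h : DirectSum.IsInternal U) (w : ι → ℤ) {p : ι} {x : V} (hx : x ∈ U p) :
    gw h w x = ((w p : ℤ) : K) • x := by
  rw [gw, glue_apply h _ hx]; rfl

lemma Pr_gw (h : DirectSum.IsInternal U) (w : ι → ℤ) (p : ι) (x : V) :
    Pr h p (gw h w x) = ((w p : ℤ) : K) • Pr h p x := by
  have : (Pr h p) ∘ₗ (gw h w) = ((w p : ℤ) : K) • Pr h p := by
    apply int_ext h
    intro q y hy
    rw [LinearMap.comp_apply, gw_apply h w hy, map_smul, LinearMap.smul_apply]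
    by_cases hq : q = p
    · rw [hq]
    · rw [Pr_ne h hy hq, smul_zero, smul_zero]
  exact LinearMap.congr_fun this x

lemma gw_comm (h : DirectSum.IsInternal U) (w w' : ι → ℤ) : Commute (gw h w) (gw h w') := by
  apply int_ext h
  intro p x hx
  rw [Module.End.mul_apply, Module.End.mul_apply, gw_apply h w' hx, gw_apply h w hx, map_smul,
    map_smul, gw_apply h w' hx, gw_apply h w hx, smul_comm]

lemma gw_comm' (h : DirectSum.IsInternal U) (w : ι → ℤ) {e : Module.End K V} {s : ι → ι}
    (he : ∀ p, ∀ x ∈ U p, e x ∈ U (s p)) (hs : ∀ p, w (s p) = w p) : Commute (gw h w) e := by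
  apply int_ext h
  intro p x hx
  rw [Module.End.mul_apply, Module.End.mul_apply, gw_apply h w (he p x hx), gw_apply h w hx,
    map_smul, hs]

variable (h : DirectSum.IsInternal U) (w : ι → ℤ) {e : Module.End K V} (s : Equiv.Perm ι)
  (he : ∀ p, ∀ x ∈ U p, e x ∈ U (s p))

include he

lemma Pr_shift (p : ι) (x : V) : Pr h (s p) (e x) = e (Pr h p x) := by
  have : (Pr h (s p)) ∘ₗ e = e ∘ₗ (Pr h p) := by
    apply int_ext h
    intro q y hy
    rw [LinearMap.comp_apply, LinearMap.comp_apply]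
    by_cases hq : q = p
    · subst hq
      rw [Pr_same h hy, Pr_same h (he _ y hy)]
    · rw [Pr_ne h hy hq, map_zero, Pr_ne h (he _ y hy) (fun h' => hq (s.injective h'))]
  exact LinearMap.congr_fun this x

lemma Pr_shift_pow (k : ℕ) (p : ι) (x : V) :
    Pr h ((s ^ k) p) ((e ^ k) x) = (e ^ k) (Pr h p x) := by
  induction k generalizing p x with
  | zero => rfl
  | succ k ih =>
    rw [pow_succ, Equiv.Perm.mul_apply, pow_succ, Module.End.mul_apply, ih,
      Pr_shift h s he, Module.End.mul_apply]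

lemma hlz_of [Module.Finite K V] (hw : ∀ p, w (s p) = w p + 2)
    (hinj : ∀ (k : ℕ) (p : ι), w p = -k → ∀ x ∈ U p, (e ^ k) x = 0 → x = 0)
    (hsurj : ∀ (k : ℕ) (p : ι), w p = -k → ∀ z ∈ U ((s ^ k) p), ∃ x ∈ U p, (e ^ k) x = z) :
    HLz (gw h w) e := by
  have hwk : ∀ (k : ℕ) (p : ι), w ((s ^ k) p) = w p + 2 * k := by
    intro k
    induction k with
    | zero => intro p; simp
    | succ k ih =>
      intro p
      rw [pow_succ', Equiv.Perm.mul_apply, hw, ih]
      push_cast; ring
  constructor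
  · rw [eq_top_iff, ← h.submodule_iSup_eq_top]
    apply iSup_le
    intro p
    refine le_trans ?_ (le_iSup _ (w p))
    intro x hx
    rw [Module.End.mem_eigenspace_iff]
    exact gw_apply h w hx
  · apply int_ext h
    intro p x hx
    rw [LinearMap.sub_apply, Module.End.mul_apply, Module.End.mul_apply, Module.End.mul_apply,
      gw_apply h w (he p x hx), gw_apply h w hx, map_smul, ← sub_smul, hw]
    have h4 : (2 : Module.End K V) (e x) = (2 : K) • e x := by
      rw [ofNat_smul_eq_nsmul]; rfl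
    rw [h4]
    congr 1
    push_cast; ring
  · intro k x hx h0
    apply Pr_ext h
    intro p
    by_cases hp : w p = -k
    · apply hinj k p hp _ (Pr_mem h p x)
      rw [← Pr_shift_pow h s he, h0, map_zero]
    · have h1 := Pr_gw h w p x
      rw [hx, map_smul, ← sub_eq_zero, ← sub_smul] at h1
      rcases smul_eq_zero.1 h1 with h2 | h2
      · exfalso
        apply hp
        have : ((w p : ℤ) : K) = ((-k : ℤ) : K) := by
          rw [sub_eq_zero] at h2
          rw [← h2]; push_cast; ring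
        exact_mod_cast this
      · exact h2
  · intro k z hz
    have hz' : ∀ q, w q ≠ k → Pr h q z = 0 := by
      intro q hq
      have h1 := Pr_gw h w q z
      rw [hz, map_smul, ← sub_eq_zero, ← sub_smul] at h1
      rcases smul_eq_zero.1 h1 with h2 | h2
      · exfalso
        apply hq
        have : ((w q : ℤ) : K) = ((k : ℤ) : K) := by
          rw [sub_eq_zero] at h2
          rw [← h2]; push_cast; ring
        exact_mod_cast this
      · exact h2
    have hex : ∀ q, ∃ x, gw h w x = -(k : K) • x ∧ (e ^ k) x = Pr h q z := by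
      intro q
      by_cases hq : w q = k
      · have hpq : (s ^ k) ((s ^ k).symm q) = q := Equiv.apply_symm_apply _ _
        have hwp : w ((s ^ k).symm q) = -k := by
          have := hwk k ((s ^ k).symm q)
          rw [hpq, hq] at this
          omega
        obtain ⟨x, hx, hxz⟩ := hsurj k _ hwp (Pr h q z) (by rw [hpq]; exact Pr_mem h q z)
        refine ⟨x, ?_, hxz⟩
        rw [gw_apply h w hx, hwp]
        congr 1
        push_cast; ring
      · exact ⟨0, by simp, by rw [map_zero, hz' q hq]⟩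
    choose g hg1 hg2 using hex
    refine ⟨∑ q ∈ (finite_supp h).toFinset, g q, ?_, ?_⟩
    · rw [map_sum, Finset.smul_sum]
      exact Finset.sum_congr rfl (fun q _ => hg1 q)
    · rw [map_sum, Finset.sum_congr rfl (fun q _ => hg2 q)]
      apply Pr_ext' h
      intro p
      rw [map_sum]
      by_cases hp : U p = ⊥
      · have h2 : ∀ y, Pr h p y = 0 := by
          intro y
          have := Pr_mem h p y
          rw [hp, Submodule.mem_bot] at this
          exact this
        rw [Finset.sum_eq_zero (fun q _ => h2 _), h2]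
      · rw [Finset.sum_eq_single p]
        · rw [Pr_same h (Pr_mem h p z)]
        · intro q _ hq
          exact Pr_ne h (Pr_mem h q z) hq
        · intro h'
          exact absurd ((finite_supp h).mem_toFinset.2 hp) h'

end weights

/-- The perm `(β, i) ↦ (β + c, i + 2)`. -/
def sh (c : ℤ) : Equiv.Perm (ℤ × ℤ) where
  toFun p := (p.1 + c, p.2 + 2)
  invFun p := (p.1 - c, p.2 - 2)
  left_inv p := by ext <;> simp
  right_inv p := by ext <;> simp

lemma sh_pow (c : ℤ) (k : ℕ) (p : ℤ × ℤ) : (sh c ^ k) p = (p.1 + c * k, p.2 + 2 * k) := by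
  induction k with
  | zero => simp
  | succ k ih =>
    rw [pow_succ', Equiv.Perm.mul_apply, ih]
    change (_, _) = _
    ext
    · push_cast; ring
    · push_cast; ring

namespace PD

variable {C : ℤ → ℤ → Submodule K V} {N : ℤ} {a b : Module.End K V} [Module.Finite K V]

lemma hlz_a (H : PD C N a b) : HLz (gw H.int (fun p => p.2 - N - p.1)) a := by
  refine hlz_of H.int _ (sh 0) ?_ ?_ ?_ ?_
  · intro p x hx
    have := H.amap _ _ x hx
    change a x ∈ C (p.1 + 0) (p.2 + 2)
    rw [add_zero]; exact this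
  · intro p
    change (p.2 + 2) - N - (p.1 + 0) = _
    ring
  · intro k p hp x hx h0
    have e1 : p.2 = N + p.1 - k := by omega
    rw [e1] at hx
    exact H.ainj p.1 k x hx h0
  · intro k p hp z hz
    rw [sh_pow] at hz
    have e1 : p.2 = N + p.1 - k := by omega
    have e2 : p.2 + 2 * k = N + p.1 + k := by omega
    dsimp only at hz
    rw [e2, zero_mul, add_zero] at hz
    obtain ⟨x, hx, h1⟩ := H.asurj p.1 k z hz
    exact ⟨x, by rw [e1]; exact hx, h1⟩

lemma hlz_b (H : PD C N a b) : HLz (gw H.int (fun p => p.1)) H.b0 := by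
  refine hlz_of H.int _ (sh 2) ?_ ?_ ?_ ?_
  · intro p x hx
    exact H.b0_mem hx
  · intro p
    rfl
  · intro k p hp x hx h0
    rw [hp] at hx
    apply H.binj k p.2 x hx
    have h1 := (H.b0_pow hx k).2
    rw [h0, sub_zero] at h1
    convert h1 using 2
    ring
  · intro k p hp z hz
    rw [sh_pow] at hz
    dsimp only at hz
    have e1 : p.1 + 2 * (k : ℤ) = k := by omega
    rw [e1] at hz
    obtain ⟨x, hx, h1⟩ := H.bsurj k p.2 z hz
    refine ⟨x, by rw [hp]; exact hx, ?_⟩
    obtain ⟨h2, h3⟩ := H.b0_pow hx k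
    have e2 : -(k : ℤ) + 2 * k = k := by ring
    rw [e2] at h2 h3
    have h4 : (H.b0 ^ k) x - z ∈ filt C (k - 1) (p.2 + 2 * k) := by
      have : (H.b0 ^ k) x - z = ((b ^ k) x - z) - ((b ^ k) x - (H.b0 ^ k) x) := by abel
      rw [this]
      exact Submodule.sub_mem _ h1 h3
    have h5 : (H.b0 ^ k) x - z ∈ C k (p.2 + 2 * k) := Submodule.sub_mem _ h2 hz
    have h6 := Pr_same H.int (p := ((k : ℤ), p.2 + 2 * (k : ℤ))) h5
    rw [H.Pr_of_lt h4 (by omega)] at h6
    exact sub_eq_zero.1 h6.symm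

/-- The leading part of `a + b` has the hard Lefschetz property. -/
theorem E_inj (H : PD C N a b) {i : ℤ} {M : ℕ} (hM : i + M = N) {x : V}
    (hx : ∀ p : ℤ × ℤ, p.2 ≠ i → Pr H.int p x = 0) (h0 : ((a + H.b0) ^ M) x = 0) : x = 0 := by
  refine hl_sum H.hlz_a H.hlz_b (gw_comm _ _ _) ?_ ?_ H.a_b0 (k := M) ?_ h0
  · refine gw_comm' H.int _ (s := fun p => (p.1 + 2, p.2 + 2)) (fun p x hx => H.b0_mem hx) ?_
    intro p
    ring
  · refine (gw_comm' H.int _ (s := fun p => (p.1, p.2 + 2)) (fun p x hx => H.amap _ _ x hx)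
      ?_).symm
    intro p
    rfl
  · apply Pr_ext' H.int
    intro p
    rw [map_add, Pr_gw, Pr_gw, map_smul]
    by_cases hp : p.2 = i
    · rw [← add_smul]
      congr 1
      rw [hp, ← hM]
      push_cast; ring
    · rw [hx p hp, smul_zero, smul_zero, smul_zero, add_zero]

end PD

/-- The action of `a + b t` on power series. -/
def dop (a b : Module.End K V) (y : ℕ → V) : ℕ → V
  | 0 => a (y 0)
  | k + 1 => a (y (k + 1)) + b (y k)

/-- The filtration of the power series. -/
def InL (C : ℤ → ℤ → Submodule K V) (ρ i : ℤ) (y : ℕ → V) : Prop :=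
  ∀ k : ℕ, y k ∈ filt C (2 * k - ρ) i

namespace PD

variable {C : ℤ → ℤ → Submodule K V} {N : ℤ} {a b : Module.End K V} [Module.Finite K V]

lemma dop_inL (H : PD C N a b) {ρ i : ℤ} {y : ℕ → V} (hy : InL C ρ i y) :
    InL C ρ (i + 2) (dop a b y) := by
  intro k
  rcases k with _ | k
  · exact H.a_filt (hy 0)
  · refine Submodule.add_mem _ (H.a_filt (hy (k + 1))) ?_
    have := H.b_filt (hy k)
    convert this using 2
    push_cast; ring

lemma dop_iter_inL (H : PD C N a b) {ρ i : ℤ} {y : ℕ → V} (hy : InL C ρ i y) (m : ℕ) :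
    InL C ρ (i + 2 * m) ((dop a b)^[m] y) := by
  induction m with
  | zero => simpa using hy
  | succ m ih =>
    rw [Function.iterate_succ_apply']
    have := H.dop_inL ih
    convert this using 1
    push_cast; ring

/-- The symbol. -/
noncomputable def sym (H : PD C N a b) (n : ℕ) (ρ i : ℤ) (y : ℕ → V) : V :=
  ∑ k ∈ range (n + 1), Pr H.int (2 * k - ρ, i) (y k)

lemma sym_dop (H : PD C N a b) {n : ℕ} {ρ i : ℤ} (hn : ∀ i, C (2 * n - ρ) i = ⊥) {y : ℕ → V}
    (hy : InL C ρ i y) : H.sym n ρ (i + 2) (dop a b y) = (a + H.b0) (H.sym n ρ i y) := by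
  have h1 : ∀ k, Pr H.int (2 * ((k + 1 : ℕ) : ℤ) - ρ, i + 2) (dop a b y (k + 1)) =
      a (Pr H.int (2 * ((k + 1 : ℕ) : ℤ) - ρ, i) (y (k + 1))) +
        H.b0 (Pr H.int (2 * (k : ℤ) - ρ, i) (y k)) := by
    intro k
    rw [dop, map_add, H.Pr_a, ← H.Pr_b (hy k)]
    congr 3
    ext
    · push_cast; ring
    · rfl
  have h2 : H.b0 (Pr H.int (2 * (n : ℤ) - ρ, i) (y n)) = 0 := by
    have := Pr_mem H.int (2 * (n : ℤ) - ρ, i) (y n)
    dsimp only at this
    rw [hn i, Submodule.mem_bot] at this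
    rw [this, map_zero]
  rw [sym, Finset.sum_range_succ', Finset.sum_congr rfl (fun k _ => h1 k),
    Finset.sum_add_distrib, LinearMap.add_apply, sym]
  have h3 : H.b0 (∑ k ∈ range (n + 1), Pr H.int (2 * (k : ℤ) - ρ, i) (y k)) =
      ∑ k ∈ range n, H.b0 (Pr H.int (2 * (k : ℤ) - ρ, i) (y k)) := by
    rw [map_sum, Finset.sum_range_succ, h2, add_zero]
  rw [h3, Finset.sum_range_succ', map_add, map_sum]
  have h4 : Pr H.int (2 * ((0 : ℕ) : ℤ) - ρ, i + 2) (dop a b y 0) =
      a (Pr H.int (2 * ((0 : ℕ) : ℤ) - ρ, i) (y 0)) := by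
    rw [dop, H.Pr_a]
  rw [h4]
  abel

lemma exists_top (H : PD C N a b) : ∃ B : ℕ, ∀ β : ℤ, (B : ℤ) ≤ β → ∀ i, C β i = ⊥ := by
  obtain ⟨n, hn⟩ := ((finite_supp H.int).image (fun p => p.1.natAbs)).bddAbove
  refine ⟨n + 1, fun β hβ i => ?_⟩
  by_contra hne
  have h1 : β.natAbs ≤ n := hn ⟨(β, i), hne, rfl⟩
  omega

lemma strict_step (H : PD C N a b) {ρ i : ℤ} {M : ℕ} (hM : i + M = N) {y : ℕ → V}
    (hy : InL C ρ i y) (hy' : InL C (ρ + 1) (i + 2 * M) ((dop a b)^[M] y)) :
    InL C (ρ + 1) i y := by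
  obtain ⟨B, hB⟩ := H.exists_top
  obtain ⟨n, hn⟩ : ∃ n : ℕ, (B : ℤ) ≤ 2 * n - ρ := ⟨(B + ρ.natAbs), by omega⟩
  have hbot : ∀ i, C (2 * n - ρ) i = ⊥ := hB _ hn
  have h1 : ∀ m : ℕ, H.sym n ρ (i + 2 * m) ((dop a b)^[m] y) =
      ((a + H.b0) ^ m) (H.sym n ρ i y) := by
    intro m
    induction m with
    | zero => simp
    | succ m ih =>
      rw [Function.iterate_succ_apply', pow_succ', Module.End.mul_apply, ← ih,
        ← H.sym_dop hbot (H.dop_iter_inL hy m)]
      congr 1
      push_cast; ring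
  have h2 : H.sym n ρ (i + 2 * M) ((dop a b)^[M] y) = 0 := by
    apply Finset.sum_eq_zero
    intro k _
    exact H.Pr_of_lt (hy' k) (by omega)
  have h3 : H.sym n ρ i y = 0 := by
    apply H.E_inj hM
    · intro p hp
      rw [sym, map_sum]
      apply Finset.sum_eq_zero
      intro k _
      apply Pr_ne H.int (Pr_mem H.int _ _)
      intro h'
      apply hp
      rw [← h']
    · rw [← h1 M, h2]
  intro k
  have h4 : Pr H.int (2 * (k : ℤ) - ρ, i) (y k) = 0 := by
    by_cases hk : k < n + 1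
    · have h5 := congrArg (Pr H.int (2 * (k : ℤ) - ρ, i)) h3
      rw [sym, map_sum, map_zero, Finset.sum_eq_single k] at h5
      · rwa [Pr_same H.int (Pr_mem H.int _ _)] at h5
      · intro l _ hl
        apply Pr_ne H.int (Pr_mem H.int _ _)
        intro h'
        rw [Prod.mk.injEq] at h'
        apply hl
        have := h'.1
        omega
      · intro h'
        exact absurd (Finset.mem_range.2 hk) h'
    · have := Pr_mem H.int (2 * (k : ℤ) - ρ, i) (y k)
      dsimp only at this
      rw [hB _ (by omega) i, Submodule.mem_bot] at this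
      exact this
  have h5 := H.filt_pred (hy k) h4
  convert h5 using 2
  ring

/-- Strictness: if `(a + b t) ^ M y` lies in a step of the filtration, then so does `y`. -/
theorem strict (H : PD C N a b) {ρ i : ℤ} {M : ℕ} (hM : i + M = N) {y : ℕ → V}
    (hy : ∀ k, ∀ p : ℤ × ℤ, p.2 ≠ i → Pr H.int p (y k) = 0)
    (hy' : InL C ρ (i + 2 * M) ((dop a b)^[M] y)) : InL C ρ i y := by
  obtain ⟨B, hB⟩ := H.exists_top
  have h0 : ∀ ρ', ρ' ≤ -(B : ℤ) → InL C ρ' i y := by
    intro ρ' hρ' k
    rw [H.mem_filt]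
    intro p hp
    by_cases h1 : p.2 = i
    · have h2 : ¬ p.1 ≤ 2 * k - ρ' := fun h' => hp ⟨h', h1⟩
      have h3 := Pr_mem H.int p (y k)
      rw [hB _ (by omega) p.2, Submodule.mem_bot] at h3
      exact h3
    · exact hy k p h1
  by_cases hρ : ρ ≤ -(B : ℤ)
  · exact h0 ρ hρ
  · obtain ⟨n, hn⟩ : ∃ n : ℕ, ρ = -(B : ℤ) + n := ⟨(ρ + B).toNat, by omega⟩
    have key : ∀ m : ℕ, m ≤ n → InL C (-(B : ℤ) + m) i y := by
      intro m
      induction m with
      | zero => intro _; exact h0 _ (by simp)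
      | succ m ih =>
        intro hm
        have h1 := H.strict_step hM (ih (by omega)) (fun k => filt_mono (by omega) (hy' k))
        convert h1 using 1
        push_cast; ring
    rw [hn]
    exact key n le_rfl

end PD

end Pool.Agent.H90.DS
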