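import Pool.Agent.H90.G.S8.H914R2.HLam
import Pool.Agent.H90.G.S8.H914R2.PProd

/-!
# The sum of two commuting Lefschetz operators
-/

set_option autoImplicit false
set_option linter.unusedSectionVars false

namespace Pool.Agent.H90.DS

open Pool.Agent.H914 Module

variable {K : Type*} [Field K] [CharZero K] {V : Type*} [AddCommGroup V] [Module K V]

/-- The hard Lefschetz property with respect to a diagonalisable operator with integral
eigenvalues. -/
structure HLz (h e : Module.End K V) : Prop where
  top : ⨆ k : ℤ, Module.End.eigenspace h (k : K) = ⊤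
  he : h * e - e * h = 2 * e
  inj : ∀ (k : ℕ) (x : V), h x = -(k : K) • x → (e ^ k) x = 0 → x = 0
  surj : ∀ (k : ℕ) (z : V), h z = (k : K) • z → ∃ x, h x = -(k : K) • x ∧ (e ^ k) x = z

lemma exists_bound [Module.Finite K V] (h : Module.End K V) :
    ∃ n : ℕ, ∀ k : ℤ, (n : ℤ) < |k| → Module.End.eigenspace h (k : K) = ⊥ := by
  have hfin : Set.Finite {k : ℤ | h.HasEigenvalue (k : K)} := by
    refine Set.Finite.preimage (f := fun k : ℤ => (k : K)) ?_ h.finite_hasEigenvalue
    intro a _ b _ hab
    exact Int.cast_injective (α := K) hab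
  obtain ⟨n, hn⟩ := (hfin.image (fun k => k.natAbs)).bddAbove
  refine ⟨n, fun k hk => ?_⟩
  by_contra hne
  have h1 : k.natAbs ≤ n := hn ⟨k, hne, rfl⟩
  have h2 : |k| = (k.natAbs : ℤ) := (Int.natCast_natAbs k).symm
  omega

lemma HLz.exists_f [Module.Finite K V] {h e : Module.End K V} (H : HLz h e) :
    ∃ f, Sl2 h e f := by
  obtain ⟨n, hn⟩ := exists_bound h
  let gr : ℕ → Submodule K V := fun m => Module.End.eigenspace h (((m : ℤ) - n : ℤ) : K)
  have hmem : ∀ m x, x ∈ gr m ↔ h x = (((m : ℤ) - n : ℤ) : K) • x := by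
    intro m x
    exact Module.End.mem_eigenspace_iff
  have hint : DirectSum.IsInternal gr := by
    rw [DirectSum.isInternal_submodule_iff_iSupIndep_and_iSup_eq_top]
    constructor
    · refine h.eigenspaces_iSupIndep.comp (f := fun m : ℕ => (((m : ℤ) - n : ℤ) : K)) ?_
      intro a b hab
      have h1 : ((a : ℤ) - n : ℤ) = (b : ℤ) - n := Int.cast_injective (α := K) hab
      omega
    · rw [eq_top_iff, ← H.top]
      apply iSup_le
      intro k
      by_cases hk : (n : ℤ) < |k|
      · rw [hn k hk]; exact bot_le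
      · have h0 : 0 ≤ k + n := by
          have := abs_le.1 (not_lt.1 hk)
          omega
        have h1 : k = (((k + n).toNat : ℕ) : ℤ) - n := by
          rw [Int.toNat_of_nonneg h0]; ring
        conv_lhs => rw [h1]
        exact le_iSup gr (k + n).toNat
  have hL : IsHom gr 2 e := by
    intro i a ha
    by_cases h0 : 0 ≤ i
    · lift i to ℕ using h0
      rw [grZ_natCast] at ha
      have h2 : ((i : ℤ) + 2) = ((i + 2 : ℕ) : ℤ) := by push_cast; ring
      rw [h2, grZ_natCast, hmem]
      have h3 := congrArg (fun T => T a) H.he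
      simp only [LinearMap.sub_apply, Module.End.mul_apply] at h3
      rw [(hmem i a).1 ha, map_smul] at h3
      rw [sub_eq_iff_eq_add] at h3
      rw [h3]
      have h4 : (2 : Module.End K V) (e a) = (2 : K) • e a := by
        rw [ofNat_smul_eq_nsmul]; rfl
      rw [h4, ← add_smul]
      congr 1
      push_cast; ring
    · rw [grZ_of_neg (by omega)] at ha
      rw [(Submodule.mem_bot _).1 ha, map_zero]
      exact Submodule.zero_mem _
  have hbd : ∀ i, 2 * n + 1 ≤ i → gr i = ⊥ := by
    intro i hi
    apply hn
    rw [abs_of_pos (by omega)]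
    omega
  have hHL : HardLef gr n e := by
    intro i hi
    have e1 : (((i : ℤ) - n : ℤ) : K) = -((n - i : ℕ) : K) := by
      rw [Nat.cast_sub hi]; push_cast; ring
    have e2 : (((2 * n - i : ℕ) : ℤ) - n : ℤ) = ((n - i : ℕ) : ℤ) := by omega
    constructor
    · intro a ha h0
      apply H.inj (n - i) a _ h0
      rw [(hmem i a).1 ha, e1]
    · intro b hb
      have h1 := (hmem _ b).1 hb
      rw [e2] at h1
      obtain ⟨a, ha, hab⟩ := H.surj (n - i) b (by simpa using h1)
      refine ⟨a, ?_, hab⟩
      rw [hmem, ha, e1]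
  obtain ⟨Lam, hs, -, -⟩ := exists_sl2 hint hL hbd hHL
  refine ⟨Lam, ?_⟩
  have hwt : wt hint n = h := by
    apply gr_ext hint
    intro i a ha
    rw [wt, scal_apply hint _ ha, (hmem i a).1 ha, node]
    congr 1
    push_cast; ring
  rwa [hwt] at hs

section comm

variable {h e f T : Module.End K V}

lemma ad_sl2 {A : Type*} [Ring A] [Algebra K A] {h e f : A} (t : Sl2 h e f) :
    Sl2 (LinearMap.mulLeft K h - LinearMap.mulRight K h)
      (LinearMap.mulLeft K e - LinearMap.mulRight K e)
      (LinearMap.mulLeft K f - LinearMap.mulRight K f) where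
  ef := by
    apply LinearMap.ext
    intro x
    have := t.ef
    simp only [LinearMap.sub_apply, Module.End.mul_apply, LinearMap.mulLeft_apply,
      LinearMap.mulRight_apply]
    rw [← this]
    noncomm_ring
  he := by
    apply LinearMap.ext
    intro x
    have := t.he
    have h2 : ∀ y : A, (2 : Module.End K A) y = 2 * y := by
      intro y
      rw [two_mul, ← one_add_one_eq_two, LinearMap.add_apply, Module.End.one_apply]
    simp only [LinearMap.sub_apply, Module.End.mul_apply, LinearMap.mulLeft_apply,
      LinearMap.mulRight_apply, h2]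
    calc h * (e * x - x * e) - (e * x - x * e) * h - (e * (h * x - x * h) - (h * x - x * h) * e)
        = (h * e - e * h) * x - x * (h * e - e * h) := by noncomm_ring
      _ = _ := by rw [this]; noncomm_ring
  hf := by
    apply LinearMap.ext
    intro x
    have := t.hf
    have h2 : ∀ y : A, (2 : Module.End K A) y = 2 * y := by
      intro y
      rw [two_mul, ← one_add_one_eq_two, LinearMap.add_apply, Module.End.one_apply]
    simp only [LinearMap.sub_apply, Module.End.mul_apply, LinearMap.mulLeft_apply,
      LinearMap.mulRight_apply, h2, LinearMap.neg_apply]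
    calc h * (f * x - x * f) - (f * x - x * f) * h - (f * (h * x - x * h) - (h * x - x * h) * f)
        = (h * f - f * h) * x - x * (h * f - f * h) := by noncomm_ring
      _ = _ := by rw [this]; noncomm_ring

/-- The operators which commute with `h` and `e` commute with `f`. -/
lemma comm_f [Module.Finite K V] (t : Sl2 h e f) (hh : Commute h T) (he : Commute e T) :
    Commute f T := by
  have h1 := Sl2.f_eq_zero (ad_sl2 (K := K) t) (u := T) (M := 0) (by
      simp only [LinearMap.sub_apply, LinearMap.mulLeft_apply, LinearMap.mulRight_apply, hh.eq]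
      simp) (by
      simp only [zero_add, pow_one, LinearMap.sub_apply, LinearMap.mulLeft_apply,
        LinearMap.mulRight_apply, he.eq]
      simp)
  simp only [LinearMap.sub_apply, LinearMap.mulLeft_apply, LinearMap.mulRight_apply] at h1
  exact sub_eq_zero.1 h1

end comm

/-- The sum of two commuting Lefschetz operators is a Lefschetz operator. -/
theorem hl_sum [Module.Finite K V] {h₁ e₁ h₂ e₂ : Module.End K V} (H₁ : HLz h₁ e₁)
    (H₂ : HLz h₂ e₂) (hhh : Commute h₁ h₂) (hhe : Commute h₁ e₂) (heh : Commute e₁ h₂)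
    (hee : Commute e₁ e₂) {k : ℕ} {x : V} (hx : h₁ x + h₂ x = -(k : K) • x)
    (h0 : ((e₁ + e₂) ^ k) x = 0) : x = 0 := by
  obtain ⟨f₁, t₁⟩ := H₁.exists_f
  obtain ⟨f₂, t₂⟩ := H₂.exists_f
  have c1 : Commute f₁ h₂ := comm_f t₁ hhh heh
  have c2 : Commute f₁ e₂ := comm_f t₁ hhe hee
  have c3 : Commute f₂ h₁ := comm_f t₂ hhh.symm hhe.symm
  have c4 : Commute f₂ e₁ := comm_f t₂ heh.symm hee.symm
  have t := t₁.add t₂ hhe c3.symm heh c4.symm c1 c2
  by_contra hne
  have hf : (f₁ + f₂) x = 0 := Sl2.f_eq_zero t (M := k) (by simpa using hx) (by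
    rw [pow_succ', Module.End.mul_apply, h0, map_zero])
  exact Sl2.e_pow_ne t hf (m := k) (by simpa using hx) hne le_rfl h0

end Pool.Agent.H90.DS
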