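import Mathlib

/-!
# Linear equations over the polynomial ring
-/

set_option autoImplicit false
set_option linter.unusedSectionVars false

namespace Pool.Agent.H90.DS

open Module Finset Polynomial

variable {R : Type*} [CommRing R] [Algebra ℚ R]

/-- The polynomial with the coefficients `ℓ (p.coeff k)`. -/
noncomputable def T (ℓ : R →ₗ[ℚ] ℚ) (p : R[X]) : ℚ[X] :=
  ∑ k ∈ range (p.natDegree + 1), monomial k (ℓ (p.coeff k))

lemma coeff_T (ℓ : R →ₗ[ℚ] ℚ) (p : R[X]) (m : ℕ) : (T ℓ p).coeff m = ℓ (p.coeff m) := by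
  rw [T, Polynomial.finsetSum_coeff]
  simp only [Polynomial.coeff_monomial]
  rw [Finset.sum_ite_eq']
  split_ifs with h
  · rfl
  · rw [Polynomial.coeff_eq_zero_of_natDegree_lt, map_zero]
    rw [Finset.mem_range] at h
    omega

lemma T_add (ℓ : R →ₗ[ℚ] ℚ) (p q : R[X]) : T ℓ (p + q) = T ℓ p + T ℓ q := by
  ext m
  rw [coeff_T, coeff_add, coeff_add, coeff_T, coeff_T, map_add]

lemma T_sub (ℓ : R →ₗ[ℚ] ℚ) (p q : R[X]) : T ℓ (p - q) = T ℓ p - T ℓ q := by
  ext m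
  rw [coeff_T, coeff_sub, coeff_sub, coeff_T, coeff_T, map_sub]

lemma T_sum {ι : Type*} (ℓ : R →ₗ[ℚ] ℚ) (s : Finset ι) (p : ι → R[X]) :
    T ℓ (∑ i ∈ s, p i) = ∑ i ∈ s, T ℓ (p i) := by
  ext m
  rw [coeff_T, finsetSum_coeff, finsetSum_coeff, map_sum]
  simp only [coeff_T]

lemma T_mul (ℓ : R →ₗ[ℚ] ℚ) (p : R[X]) (q : ℚ[X]) :
    T ℓ (p * q.map (algebraMap ℚ R)) = T ℓ p * q := by
  ext m
  rw [coeff_T, coeff_mul, coeff_mul, map_sum]
  apply Finset.sum_congr rfl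
  intro x _
  rw [coeff_T, coeff_map, mul_comm, ← Algebra.smul_def, map_smul, smul_eq_mul, mul_comm]

theorem exists_solution (deg : R →ₗ[ℚ] ℚ) (U U' : Submodule ℚ R) [Module.Finite ℚ U]
    (hperf : ∀ x ∈ U', (∀ v ∈ U, deg (x * v) = 0) → x = 0) (F : R[X])
    (hF : ∀ y : R[X], (∀ k, y.coeff k ∈ U) → ∀ k, (F * y).coeff k ∈ U')
    (hinj : ∀ y : R[X], (∀ k, y.coeff k ∈ U) → F * y = 0 → y = 0) (z : R[X])
    (hz : ∀ k, z.coeff k ∈ U') :
    ∃ δ : ℚ[X], δ ≠ 0 ∧ ∃ y : R[X], (∀ k, y.coeff k ∈ U) ∧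
      F * y = z * δ.map (algebraMap ℚ R) := by
  set s := Module.finrank ℚ U with hs
  let B : Basis (Fin s) ℚ U := Module.finBasis ℚ U
  let v : Fin s → R := fun i => (B i : R)
  let ℓ : Fin s → (R →ₗ[ℚ] ℚ) := fun k => deg ∘ₗ LinearMap.mulRight ℚ (v k)
  have hℓ : ∀ k x, ℓ k x = deg (x * v k) := fun k x => rfl
  have hperf' : ∀ x ∈ U', (∀ k, ℓ k x = 0) → x = 0 := by
    intro x hx h0
    apply hperf x hx
    intro w hw
    have h1 : (deg ∘ₗ LinearMap.mulLeft ℚ x ∘ₗ U.subtype : U →ₗ[ℚ] ℚ) = 0 := by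
      apply B.ext
      intro k
      exact h0 k
    exact LinearMap.congr_fun h1 ⟨w, hw⟩
  let Mt : Matrix (Fin s) (Fin s) ℚ[X] := fun k i => T (ℓ k) (F * C (v i))
  let mk : (Fin s → ℚ[X]) → R[X] := fun c => ∑ i, C (v i) * (c i).map (algebraMap ℚ R)
  have hmk : ∀ c k, (mk c).coeff k = ∑ i, (c i).coeff k • v i := by
    intro c k
    rw [finsetSum_coeff]
    apply Finset.sum_congr rfl
    intro i _
    rw [coeff_C_mul, coeff_map, mul_comm, ← Algebra.smul_def]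
  have hmkU : ∀ c k, (mk c).coeff k ∈ U := by
    intro c k
    rw [hmk]
    exact Submodule.sum_mem _ (fun i _ => Submodule.smul_mem _ _ (B i).2)
  have hT : ∀ c k, T (ℓ k) (F * mk c) = (Mt.mulVec c) k := by
    intro c k
    rw [Finset.mul_sum, T_sum]
    apply Finset.sum_congr rfl
    intro i _
    rw [← mul_assoc, T_mul]
  have hdet : Mt.det ≠ 0 := by
    intro hdet
    obtain ⟨c, hc, hc0⟩ := Matrix.exists_mulVec_eq_zero_iff.2 hdet
    apply hc
    have h1 : F * mk c = 0 := by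
      ext m
      rw [coeff_zero]
      apply hperf' _ (hF _ (hmkU c) m)
      intro k
      rw [← coeff_T, hT, hc0]
      rfl
    have h2 := hinj _ (hmkU c) h1
    funext i
    ext m
    have h3 := congrArg (fun p => p.coeff m) h2
    simp only [hmk, coeff_zero] at h3
    have h4 : ∑ i, (c i).coeff m • B i = 0 := by
      apply Subtype.ext
      rw [Submodule.coe_sum]
      simpa using h3
    have h5 := (Fintype.linearIndependent_iff.1 B.linearIndependent) _ h4 i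
    rw [h5]; rfl
  refine ⟨Mt.det, hdet, mk (Mt.adjugate.mulVec (fun k => T (ℓ k) z)), hmkU _, ?_⟩
  ext m
  rw [← sub_eq_zero, ← coeff_sub]
  apply hperf'
  · rw [coeff_sub]
    apply Submodule.sub_mem _ (hF _ (hmkU _) m)
    rw [coeff_mul]
    apply Submodule.sum_mem
    intro x _
    rw [coeff_map, mul_comm, ← Algebra.smul_def]
    exact Submodule.smul_mem _ _ (hz _)
  · intro k
    rw [← coeff_T, T_sub, hT, T_mul, Matrix.mulVec_mulVec, Matrix.mul_adjugate,
      Matrix.smul_mulVec, Matrix.one_mulVec, Pi.smul_apply, smul_eq_mul, mul_comm, sub_self,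
      coeff_zero]

end Pool.Agent.H90.DS
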