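import Pool.Agent.H90.BU.StmtDefs
import Pool.Agent.H90.G.S8.H914R2.DDefs
import Pool.Agent.H90.G.S8.W498.Dom.Defs

/-!
# The descent of the standard conjecture of Hodge type: definitions
-/

set_option autoImplicit false

open CategoryTheory AlgebraicGeometry

universe u v

namespace Pool.Agent.H90.DS

open Pool.Agent.H914 VarClass Obj WeilCohomology

variable {k : Type u} [Field k] {𝒱 : VarClass k} {ops : CycleOps 𝒱}

/-- The morphism `f : Y ⟶ X` is surjective of relative dimension `r`, and the divisor `B` on `Y` has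
positive degree on its fibres: `dim Y = dim X + r`, and the push-forward of `B ^ r` is a positive
multiple of the class of `X`. -/
structure IsSurjective (W : WeilCohomology.{u, v} ops) {X Y : 𝒱.Obj} (f : Y ⟶ X) (B : Y.Cycles)
    (r : ℕ) : Prop where
  dim_eq : Y.dim = X.dim + r
  degree_pos : ∃ c : ℚ, 0 < c ∧
    W.cl X (ops.push f (divPow ops B r Y.V.fundCycle)) = (c : W.K) • (1 : W.H X)

/-- The divisor `f^* A + t B` on `Y`. -/
noncomputable def sumDiv (ops : CycleOps 𝒱) {X Y : 𝒱.Obj} (f : Y ⟶ X) (A : X.Cycles)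
    (B : Y.Cycles) (t : ℚ) : Y.Cycles :=
  ops.pull f A + t • B

/-- The property `Φ` holds for arbitrarily small positive rational numbers. -/
def Arbitrarily (Φ : ℚ → Prop) : Prop := ∀ ε : ℚ, 0 < ε → ∃ t, 0 < t ∧ t < ε ∧ Φ t

end Pool.Agent.H90.DS
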